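import Pool.Agent.P.MP_ab3ecb_nt.Inv.Plc

/-!
Orders, values, divisors and Riemann-Roch spaces of a function field in one variable, semilinear
automorphisms and constant field extensions.
-/

namespace Pool.Agent.P.MP_ab3ecb_nt.Inv

open WithZero Polynomial Module
open Pool.Agent.P.MP_6f117a_ag (Place FF Model Reg)
open scoped IntermediateField Classical

set_option linter.unusedSectionVars false

section basic

variable {k E : Type} [Field k] [Field E] [Algebra k E]

/-- The order of vanishing. -/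
noncomputable def ord (P : Place k E) (z : E) : ℤ := -log (P.v z)

/-- The value at a place. -/
noncomputable def ev (P : Place k E) (z : E) : k :=
  if h : ∃ c, P.v (z - algebraMap k E c) < 1 then h.choose else 0

/-- Divisors. -/
abbrev Dv (k E : Type) [Field k] [Field E] [Algebra k E] := Place k E →₀ ℤ

variable (k) in
/-- The divisor of a function. -/
noncomputable def dv (z : E) : Dv k E :=
  if h : (Function.support fun P : Place k E => ord P z).Finite then
    Finsupp.ofSupportFinite _ h else 0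

/-- The degree of a divisor. -/
noncomputable def deg : Dv k E →+ ℤ := Finsupp.liftAddHom fun _ => AddMonoidHom.id ℤ

/-- The Riemann-Roch space. -/
noncomputable def LS (D : Dv k E) : Submodule k E := ⨅ P : Place k E, P.le (D P)

/-- The value of a function on a divisor. -/
noncomputable def evD (z : E) (D : Dv k E) : k := D.prod fun P n => ev P z ^ n

variable (k) in
/-- `z` has odd order exactly at the places of `S`. -/
def OddAt (z : E) (S : Finset (Place k E)) : Prop := z ≠ 0 ∧ ∀ P, Odd (ord P z) ↔ P ∈ S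

variable (k) in
/-- `z` has even order at all places. -/
def Ev2 (z : E) : Prop := z ≠ 0 ∧ ∀ P : Place k E, Even (ord P z)

variable (k) in
/-- The divisors of `f` and `g` have disjoint supports. -/
def Dj (f g : E) : Prop := ∀ P : Place k E, ord P f = 0 ∨ ord P g = 0

variable (k) in
/-- Half of the divisor of `z`. -/
noncomputable def hd (z : E) : Dv k E := (dv k z).mapRange (· / 2) (by simp)

variable {P : Place k E} {x y z : E} {c : k} {D D' : Dv k E}

lemma v_ne (P : Place k E) (hz : z ≠ 0) : P.v z ≠ 0 := (map_ne_zero P.v).2 hz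

lemma v_eq (P : Place k E) (hz : z ≠ 0) : P.v z = exp (-ord P z) := by
  rw [ord, neg_neg, exp_log (v_ne P hz)]

lemma ord_eq_iff (hz : z ≠ 0) {n : ℤ} : ord P z = n ↔ P.v z = exp (-n) := by
  rw [v_eq P hz, exp_inj, neg_inj]

lemma ord_of_v {n : ℤ} (h : P.v z = exp n) : ord P z = -n := by rw [ord, h, log_exp]

@[simp] lemma ord_zero (P : Place k E) : ord P 0 = 0 := by simp [ord]

@[simp] lemma ord_one (P : Place k E) : ord P 1 = 0 := by simp [ord]

@[simp] lemma ord_neg (P : Place k E) (z : E) : ord P (-z) = ord P z := by simp [ord]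

lemma ord_mul (P : Place k E) (hx : x ≠ 0) (hy : y ≠ 0) : ord P (x * y) = ord P x + ord P y := by
  rw [ord, ord, ord, map_mul, log_mul (v_ne P hx) (v_ne P hy), neg_add]

@[simp] lemma ord_inv (P : Place k E) (z : E) : ord P z⁻¹ = -ord P z := by
  rw [ord, ord, map_inv₀, log_inv]

lemma ord_div (P : Place k E) (hx : x ≠ 0) (hy : y ≠ 0) : ord P (x / y) = ord P x - ord P y := by
  rw [div_eq_mul_inv, ord_mul P hx (inv_ne_zero hy), ord_inv, sub_eq_add_neg]

@[simp] lemma ord_zpow (P : Place k E) (z : E) (n : ℤ) : ord P (z ^ n) = n * ord P z := by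
  rw [ord, ord, map_zpow₀, log_zpow, smul_eq_mul, mul_neg]

@[simp] lemma ord_pow (P : Place k E) (z : E) (n : ℕ) : ord P (z ^ n) = n * ord P z := by
  rw [← zpow_natCast, ord_zpow]

lemma ord_prod (P : Place k E) {ι : Type} (s : Finset ι) {f : ι → E} (h : ∀ i ∈ s, f i ≠ 0) :
    ord P (∏ i ∈ s, f i) = ∑ i ∈ s, ord P (f i) := by
  induction s using Finset.induction_on with
  | empty => simp
  | insert a s ha ih =>
    rw [Finset.prod_insert ha, Finset.sum_insert ha, ord_mul P (h a (by simp))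
      (Finset.prod_ne_zero_iff.2 fun i hi => h i (by simp [hi])),
      ih fun i hi => h i (by simp [hi])]

@[simp] lemma ord_const (P : Place k E) (c : k) : ord P (algebraMap k E c) = 0 := by
  rcases eq_or_ne c 0 with rfl | h
  · simp
  · rw [ord, P.v_const h, log_one, neg_zero]

@[simp] lemma ord_π (P : Place k E) : ord P P.π = 1 := by rw [ord, P.v_π, log_exp, neg_neg]

lemma le_exp_iff (hz : z ≠ 0) {n : ℤ} : P.v z ≤ exp n ↔ -n ≤ ord P z := by
  rw [v_eq P hz, exp_le_exp, neg_le]

lemma lt_exp_iff (hz : z ≠ 0) {n : ℤ} : P.v z < exp n ↔ -n < ord P z := by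
  rw [v_eq P hz, exp_lt_exp, neg_lt]

lemma le_one_iff (hz : z ≠ 0) : P.v z ≤ 1 ↔ 0 ≤ ord P z := by
  rw [← exp_zero, le_exp_iff hz, neg_zero]

lemma lt_one_iff (hz : z ≠ 0) : P.v z < 1 ↔ 0 < ord P z := by
  rw [← exp_zero, lt_exp_iff hz, neg_zero]

lemma eq_one_iff (hz : z ≠ 0) : P.v z = 1 ↔ ord P z = 0 := by
  rw [ord_eq_iff hz, neg_zero, exp_zero]

lemma ne_zero_of_ord (h : ord P z ≠ 0) : z ≠ 0 := by
  rintro rfl
  exact h (ord_zero P)

lemma ne_zero_of_v_one (h : P.v z = 1) : z ≠ 0 := by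
  rintro rfl
  simp at h

lemma place_ext {P Q : Place k E} (h : ∀ z, z ≠ 0 → ord P z = ord Q z) : P = Q :=
  MP_6f117a_ag.Place.ext' (Valuation.ext fun z => by
    rcases eq_or_ne z 0 with rfl | hz
    · simp
    · rw [v_eq P hz, v_eq Q hz, h z hz])

lemma ev_eq (h : P.v (z - algebraMap k E c) < 1) : ev P z = c := by
  have h1 : ∃ c, P.v (z - algebraMap k E c) < 1 := ⟨c, h⟩
  rw [ev, dif_pos h1]
  exact PL.const_eq P.v P.triv h1.choose_spec h

@[simp] lemma ev_const (P : Place k E) (c : k) : ev P (algebraMap k E c) = c := ev_eq (by simp)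

@[simp] lemma ev_one (P : Place k E) : ev P 1 = 1 := by simpa using ev_const P 1

@[simp] lemma ev_zero (P : Place k E) : ev P 0 = 0 := by simpa using ev_const P 0

lemma ev_of_lt (h : P.v z < 1) : ev P z = 0 := ev_eq (by simpa using h)

lemma le_one_of_sub (h : P.v (z - algebraMap k E c) < 1) : P.v z ≤ 1 := by
  simpa using P.v.map_add_le h.le (P.triv c)

lemma deg_eq (D : Dv k E) : deg D = ∑ P ∈ D.support, D P := rfl

lemma deg_eq_of_subset {S : Finset (Place k E)} (h : D.support ⊆ S) : deg D = ∑ P ∈ S, D P := by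
  rw [deg_eq]
  exact Finset.sum_subset h fun P _ hP => Finsupp.notMem_support_iff.1 hP

@[simp] lemma deg_single (P : Place k E) (n : ℤ) : deg (Finsupp.single P n) = n := by simp [deg]

lemma deg_nonneg (h : 0 ≤ D) : 0 ≤ deg D := Finset.sum_nonneg fun P _ => h P

lemma deg_mono (h : D ≤ D') : deg D ≤ deg D' := by
  have := deg_nonneg (sub_nonneg.2 h)
  rw [map_sub] at this
  omega

lemma eq_zero_of_deg (h : 0 ≤ D) (h0 : deg D = 0) : D = 0 := by
  ext P
  by_contra h1
  exact h1 ((Finset.sum_eq_zero_iff_of_nonneg fun Q _ => h Q).1 h0 P (Finsupp.mem_support_iff.2 h1))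

lemma mem_LS : z ∈ LS D ↔ ∀ P, P.v z ≤ exp (D P) := Submodule.mem_iInf _

lemma LS_mono (h : D ≤ D') : LS D ≤ LS D' := fun _ hz =>
  mem_LS.2 fun P => (mem_LS.1 hz P).trans (exp_le_exp.2 (h P))

@[simp] lemma evD_zero (z : E) : evD z (0 : Dv k E) = 1 := rfl

@[simp] lemma evD_single (z : E) (P : Place k E) (n : ℤ) :
    evD z (Finsupp.single P n) = ev P z ^ n := Finsupp.prod_single_index (zpow_zero _)

lemma evD_eq_of_subset (z : E) {S : Finset (Place k E)} (h : D.support ⊆ S) :
    evD z D = ∏ P ∈ S, ev P z ^ D P :=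
  Finsupp.prod_of_support_subset _ h _ fun _ _ => zpow_zero _

variable [IsAlgClosed k] [FF k E]

lemma ev_spec (h : P.v z ≤ 1) : P.v (z - algebraMap k E (ev P z)) < 1 := by
  obtain ⟨c, hc⟩ := PL.res P h
  rwa [ev_eq hc]

lemma ev_add (hx : P.v x ≤ 1) (hy : P.v y ≤ 1) : ev P (x + y) = ev P x + ev P y :=
  ev_eq (by
    have := P.v.map_add_lt (ev_spec hx) (ev_spec hy)
    rwa [show x - _ + (y - _) = x + y - algebraMap k E (ev P x + ev P y) by
      rw [map_add]; ring] at this)

lemma ev_mul (hx : P.v x ≤ 1) (hy : P.v y ≤ 1) : ev P (x * y) = ev P x * ev P y :=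
  ev_eq (by
    rw [show x * y - algebraMap k E (ev P x * ev P y) = x * (y - algebraMap k E (ev P y)) +
      algebraMap k E (ev P y) * (x - algebraMap k E (ev P x)) by rw [map_mul]; ring]
    refine P.v.map_add_lt ?_ ?_ <;> rw [map_mul]
    · exact mul_lt_one_of_nonneg_of_lt_one_right hx zero_le (ev_spec hy)
    · exact mul_lt_one_of_nonneg_of_lt_one_right (P.triv _) zero_le (ev_spec hx))

lemma ev_neg (hx : P.v x ≤ 1) : ev P (-x) = -ev P x :=
  ev_eq (by
    have := ev_spec hx
    rwa [← P.v.map_neg, neg_sub', ← map_neg] at this)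

lemma ev_sub (hx : P.v x ≤ 1) (hy : P.v y ≤ 1) : ev P (x - y) = ev P x - ev P y := by
  rw [sub_eq_add_neg, ev_add hx (by rwa [P.v.map_neg]), ev_neg hy, sub_eq_add_neg]

lemma ev_pow (hx : P.v x ≤ 1) (n : ℕ) : ev P (x ^ n) = ev P x ^ n := by
  induction n with
  | zero => simp
  | succ n ih => rw [pow_succ, ev_mul (by rw [map_pow]; exact pow_le_one' hx n) hx, ih, pow_succ]

lemma ev_eq_zero_iff (hx : P.v x ≤ 1) : ev P x = 0 ↔ P.v x < 1 :=
  ⟨fun h => by simpa [h] using ev_spec hx, ev_of_lt⟩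

lemma ev_ne_zero (hx : P.v x = 1) : ev P x ≠ 0 := fun h =>
  ((ev_eq_zero_iff hx.le).1 h).ne hx

lemma ev_inv (hx : P.v x = 1) : ev P x⁻¹ = (ev P x)⁻¹ := by
  refine eq_inv_of_mul_eq_one_left ?_
  rw [← ev_mul (by simp [hx]) hx.le, inv_mul_cancel₀ (ne_zero_of_v_one hx), ev_one]

lemma ev_zpow (hx : P.v x = 1) (n : ℤ) : ev P (x ^ n) = ev P x ^ n := by
  rcases Int.eq_nat_or_neg n with ⟨n, rfl | rfl⟩
  · simp [ev_pow hx.le]
  · rw [zpow_neg, zpow_neg, zpow_natCast, zpow_natCast, ev_inv (by simp [hx]), ev_pow hx.le]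

lemma ev_div (hx : P.v x ≤ 1) (hy : P.v y = 1) : ev P (x / y) = ev P x / ev P y := by
  rw [div_eq_mul_inv, ev_mul hx (by simp [hy]), ev_inv hy, div_eq_mul_inv]

/-- The residue map as a ring homomorphism on any ring mapping into the valuation ring. -/
noncomputable def evHom {R : Type} [CommRing R] (P : Place k E) (ψ : R →+* E)
    (h : ∀ r, P.v (ψ r) ≤ 1) : R →+* k where
  toFun r := ev P (ψ r)
  map_one' := by simp
  map_zero' := by simp
  map_mul' a b := by rw [map_mul, ev_mul (h a) (h b)]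
  map_add' a b := by rw [map_add, ev_add (h a) (h b)]

lemma finite_ord (z : E) : (Function.support fun P : Place k E => ord P z).Finite := by
  rcases eq_or_ne z 0 with rfl | hz
  · simp
  · exact (PL.finite_supp hz).subset fun P h h1 => h ((eq_one_iff hz).1 h1)

@[simp] lemma dv_apply (z : E) (P : Place k E) : dv k z P = ord P z := by
  rw [dv, dif_pos (finite_ord z)]
  rfl

lemma dv_mul (hx : x ≠ 0) (hy : y ≠ 0) : dv k (x * y) = dv k x + dv k y := by
  ext P
  simp [ord_mul P hx hy]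

@[simp] lemma dv_inv (z : E) : dv k z⁻¹ = -dv k z := by
  ext P
  simp

lemma dv_div (hx : x ≠ 0) (hy : y ≠ 0) : dv k (x / y) = dv k x - dv k y := by
  ext P
  simp [ord_div P hx hy]

@[simp] lemma dv_pow (z : E) (n : ℕ) : dv k (z ^ n) = n • dv k z := by
  ext P
  simp

@[simp] lemma dv_zpow (z : E) (n : ℤ) : dv k (z ^ n) = n • dv k z := by
  ext P
  simp

@[simp] lemma dv_const (c : k) : dv k (algebraMap k E c) = 0 := by
  ext P
  simp

@[simp] lemma dv_one : dv k (1 : E) = 0 := by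
  ext P
  simp

@[simp] lemma deg_dv (z : E) : deg (dv k z) = 0 := by
  rcases eq_or_ne z 0 with rfl | hz
  · rw [show dv k (0 : E) = 0 from Finsupp.ext fun P => by simp, map_zero]
  have := PL.prod_formula (L := k) hz (dv k z).support fun P h => by
    rw [Finsupp.mem_support_iff, dv_apply]
    exact fun h1 => h ((eq_one_iff hz).2 h1)
  simp only [deg_eq, dv_apply, ord, Finset.sum_neg_distrib, this, neg_zero]

lemma mem_LS' (hz : z ≠ 0) : z ∈ LS D ↔ 0 ≤ dv k z + D := by
  rw [mem_LS, Finsupp.le_def]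
  refine forall_congr' fun P => ?_
  rw [le_exp_iff hz, Finsupp.add_apply, dv_apply, Finsupp.zero_apply]
  omega

lemma const_of_ord_nonneg (h : ∀ P : Place k E, 0 ≤ ord P z) : ∃ c, algebraMap k E c = z := by
  rcases eq_or_ne z 0 with rfl | hz
  · exact ⟨0, map_zero _⟩
  · exact PL.const_of_le fun P => (le_one_iff hz).2 (h P)

lemma const_of_dv (h : dv k z = 0) : ∃ c, algebraMap k E c = z :=
  const_of_ord_nonneg fun P => by rw [← dv_apply, h]; rfl

lemma isSquare_of_dv (h : dv k z = 0) : IsSquare z := by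
  obtain ⟨c, rfl⟩ := const_of_dv h
  obtain ⟨r, rfl⟩ := IsAlgClosed.exists_eq_mul_self c
  exact ⟨_, map_mul _ r r⟩

lemma LS_eq_bot (h : deg D < 0) : LS D = ⊥ := by
  refine (Submodule.eq_bot_iff _).2 fun z hz => by_contra fun h0 => ?_
  have := deg_nonneg ((mem_LS' h0).1 hz)
  rw [map_add, deg_dv] at this
  omega

lemma LS_zero : LS (0 : Dv k E) = (⊥ : Subalgebra k E).toSubmodule := by
  ext z
  rw [mem_LS, Subalgebra.mem_toSubmodule, Algebra.mem_bot]
  exact ⟨fun h => PL.const_of_le fun P => by simpa using h P,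
    fun ⟨c, hc⟩ P => by simpa [← hc] using P.triv c⟩

lemma LS_add_dv (hx : x ≠ 0) (D : Dv k E) :
    LS D = (LS (D + dv k x)).map (LinearMap.mulLeft k x) := by
  ext z
  rw [Submodule.mem_map]
  constructor
  · intro hz
    refine ⟨z / x, ?_, by simp [mul_div_cancel₀ _ hx]⟩
    rcases eq_or_ne z 0 with rfl | h0
    · simp
    · rw [mem_LS' (div_ne_zero h0 hx), dv_div h0 hx]
      simpa [add_comm D, ← add_assoc] using (mem_LS' h0).1 hz
  · rintro ⟨w, hw, rfl⟩
    rcases eq_or_ne w 0 with rfl | h0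
    · simp
    · rw [LinearMap.mulLeft_apply, mem_LS' (mul_ne_zero hx h0), dv_mul hx h0]
      simpa [add_comm, add_left_comm, add_assoc] using (mem_LS' h0).1 hw

lemma finrank_LS_add_dv (hx : x ≠ 0) (D : Dv k E) :
    finrank k (LS (D + dv k x)) = finrank k (LS D) := by
  rw [LS_add_dv hx D]
  exact (Submodule.equivMapOfInjective _ (mul_right_injective₀ hx) _).finrank_eq

lemma hd_apply (z : E) (P : Place k E) : hd k z P = ord P z / 2 := by simp [hd]

lemma Ev2.two_hd (h : Ev2 k z) : 2 • hd k z = dv k z := by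
  ext P
  obtain ⟨n, hn⟩ := h.2 P
  simp only [Finsupp.smul_apply, hd_apply, dv_apply, nsmul_eq_mul]
  omega

lemma evD_add (z : E) (h : ∀ P ∈ D.support, P.v z = 1) (h' : ∀ P ∈ D'.support, P.v z = 1) :
    evD z (D + D') = evD z D * evD z D' := by
  rw [evD_eq_of_subset z Finsupp.support_add, evD_eq_of_subset z Finset.subset_union_left,
    evD_eq_of_subset z (D := D') Finset.subset_union_right, ← Finset.prod_mul_distrib]
  exact Finset.prod_congr rfl fun P hP =>
    zpow_add₀ (ev_ne_zero ((Finset.mem_union.1 hP).elim (h P) (h' P))) _ _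

lemma evD_neg (z : E) (D : Dv k E) : evD z (-D) = (evD z D)⁻¹ := by
  rw [evD_eq_of_subset z (Finsupp.support_neg D).le, evD, Finsupp.prod, ← Finset.prod_inv_distrib]
  simp

lemma evD_nsmul (z : E) (n : ℕ) (D : Dv k E) : evD z (n • D) = evD z D ^ n := by
  rw [evD_eq_of_subset z Finsupp.support_smul, evD, Finsupp.prod, ← Finset.prod_pow]
  exact Finset.prod_congr rfl fun P _ => by
    rw [Finsupp.smul_apply, nsmul_eq_mul, mul_comm, zpow_mul, zpow_natCast]

lemma evD_mul (hx : ∀ P ∈ D.support, P.v x ≤ 1) (hy : ∀ P ∈ D.support, P.v y ≤ 1) :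
    evD (x * y) D = evD x D * evD y D := by
  rw [evD, evD, evD, Finsupp.prod, Finsupp.prod, Finsupp.prod, ← Finset.prod_mul_distrib]
  exact Finset.prod_congr rfl fun P hP => by rw [ev_mul (hx P hP) (hy P hP), mul_zpow]

lemma evD_ne_zero (h : ∀ P ∈ D.support, P.v z = 1) : evD z D ≠ 0 :=
  Finset.prod_ne_zero_iff.2 fun P hP => zpow_ne_zero _ (ev_ne_zero (h P hP))

lemma evD_const (hc : c ≠ 0) (D : Dv k E) : evD (algebraMap k E c) D = c ^ deg D := by
  rw [evD, Finsupp.prod, deg_eq]
  simp only [ev_const]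
  induction D.support using Finset.induction_on with
  | empty => simp
  | insert a s ha ih => rw [Finset.prod_insert ha, Finset.sum_insert ha, ih, zpow_add₀ hc]

end basic

/-! ### Semilinear automorphisms -/

/-- An automorphism of `E` that preserves the constants. -/
structure SA (k E : Type) [Field k] [Field E] [Algebra k E] where
  s : E ≃+* E
  s0 : k ≃+* k
  h : ∀ c, s (algebraMap k E c) = algebraMap k E (s0 c)

namespace SA

variable {k E : Type} [Field k] [Field E] [Algebra k E] (σ : SA k E)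

/-- The inverse. -/
def symm : SA k E :=
  ⟨σ.s.symm, σ.s0.symm, fun c => by rw [RingEquiv.symm_apply_eq, σ.h, σ.s0.apply_symm_apply]⟩

/-- The image of a place. -/
noncomputable def pl0 (P : Place k E) : Place k E where
  v := P.v.comap (σ.s.symm : E →+* E)
  surj := P.surj.comp σ.s.symm.surjective
  triv c := by
    rw [Valuation.comap_apply, RingHom.coe_coe]
    exact (congrArg P.v (σ.symm.h c)).trans_le (P.triv _)

/-- The action on places. -/
noncomputable def pl : Place k E ≃ Place k E where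
  toFun := σ.pl0
  invFun := σ.symm.pl0
  left_inv _ := MP_6f117a_ag.Place.ext' (Valuation.ext fun z =>
    congrArg _ (σ.s.symm_apply_apply z))
  right_inv _ := MP_6f117a_ag.Place.ext' (Valuation.ext fun z =>
    congrArg _ (σ.s.apply_symm_apply z))

lemma pl_v' (P : Place k E) (z : E) : (σ.pl P).v z = P.v (σ.s.symm z) := rfl

@[simp] lemma pl_v (P : Place k E) (z : E) : (σ.pl P).v (σ.s z) = P.v z := by
  rw [pl_v', σ.s.symm_apply_apply]

lemma pl_symm_v (P : Place k E) (z : E) : (σ.pl.symm P).v z = P.v (σ.s z) := rfl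

lemma pl_eq_iff {P Q : Place k E} : σ.pl P = Q ↔ ∀ z, Q.v (σ.s z) = P.v z :=
  ⟨fun h z => h ▸ σ.pl_v P z, fun h => MP_6f117a_ag.Place.ext' (Valuation.ext fun z => by
    rw [pl_v', ← h, σ.s.apply_symm_apply])⟩

@[simp] lemma ord_pl (P : Place k E) (z : E) : ord (σ.pl P) (σ.s z) = ord P z := by
  rw [ord, pl_v, ord]

@[simp] lemma ev_pl (P : Place k E) (z : E) : ev (σ.pl P) (σ.s z) = σ.s0 (ev P z) := by
  by_cases h : ∃ c, P.v (z - algebraMap k E c) < 1
  · obtain ⟨c, hc⟩ := h
    rw [ev_eq hc]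
    exact ev_eq (by rwa [← σ.h, ← map_sub, pl_v])
  · rw [ev, ev, dif_neg h, dif_neg, map_zero]
    rintro ⟨c, hc⟩
    obtain ⟨c, rfl⟩ := σ.s0.surjective c
    exact h ⟨c, by rwa [← σ.h, ← map_sub, pl_v] at hc⟩

/-- The action on divisors. -/
noncomputable def dm : Dv k E ≃+ Dv k E := Finsupp.domCongr σ.pl

lemma dm_apply' (D : Dv k E) (P : Place k E) : σ.dm D P = D (σ.pl.symm P) := rfl

@[simp] lemma dm_apply (D : Dv k E) (P : Place k E) : σ.dm D (σ.pl P) = D P := by
  rw [dm_apply', Equiv.symm_apply_apply]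

@[simp] lemma dm_single (P : Place k E) (n : ℤ) :
    σ.dm (Finsupp.single P n) = Finsupp.single (σ.pl P) n := by simp [dm]

lemma support_dm (D : Dv k E) : (σ.dm D).support = D.support.map σ.pl.toEmbedding := rfl

@[simp] lemma deg_dm (D : Dv k E) : deg (σ.dm D) = deg D := by
  rw [deg_eq, deg_eq, support_dm, Finset.sum_map]
  simp

@[simp] lemma evD_dm (z : E) (D : Dv k E) : evD (σ.s z) (σ.dm D) = σ.s0 (evD z D) := by
  rw [evD, evD, Finsupp.prod, Finsupp.prod, support_dm, Finset.prod_map, map_prod]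
  simp

lemma mem_LS_dm {z : E} {D : Dv k E} : σ.s z ∈ LS (σ.dm D) ↔ z ∈ LS D := by
  rw [mem_LS, mem_LS, σ.pl.surjective.forall]
  simp

lemma finrank_LS_dm (D : Dv k E) : finrank k (LS (σ.dm D)) = finrank k (LS D) := by
  let e : LS D ≃+ LS (σ.dm D) :=
    { toFun := fun z => ⟨σ.s z, σ.mem_LS_dm.2 z.2⟩
      invFun := fun z => ⟨σ.s.symm z, σ.mem_LS_dm.1 (by simp)⟩
      left_inv := fun z => by simp
      right_inv := fun z => by simp
      map_add' := fun a b => by simp }
  have := rank_eq_of_equiv_equiv (R := k) (R' := k) σ.s0 e σ.s0.bijective fun c z =>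
    Subtype.ext (by simp [e, Algebra.smul_def, σ.h])
  rw [finrank, finrank, this]

variable [IsAlgClosed k] [FF k E]

lemma dv_s (z : E) : dv k (σ.s z) = σ.dm (dv k z) := by
  ext P
  obtain ⟨P, rfl⟩ := σ.pl.surjective P
  simp

lemma hd_s (z : E) : hd k (σ.s z) = σ.dm (hd k z) := by
  ext P
  obtain ⟨P, rfl⟩ := σ.pl.surjective P
  simp [hd_apply]

end SA

/-! ### Constant field extensions -/

section ce

variable {K F k Fb : Type} [Field K] [Field F] [Algebra K F] [Field k] [Algebra K k] [Field Fb]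
  [Algebra k Fb]

/-- `Fb` is the fraction field of the domain `k ⊗[K] F`, with its action of `Aut (k / K)`. -/
structure CE (j : F →+* Fb) (act : (k ≃ₐ[K] k) →* RingAut Fb) : Prop where
  comm : ∀ c : K, j (algebraMap K F c) = algebraMap k Fb (algebraMap K k c)
  semi : ∀ τ c, act τ (algebraMap k Fb c) = algebraMap k Fb (τ c)
  fixF : ∀ τ z, act τ (j z) = j z
  lin : ∀ (ι : Type) (b : ι → F), LinearIndependent K b → LinearIndependent k (j ∘ b)
  frac : ∀ z : Fb, ∃ b ∈ Submodule.span k (Set.range j), b ≠ 0 ∧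
    b * z ∈ Submodule.span k (Set.range j)

/-- The case of an algebraic extension of the constants of a function field. -/
structure GS (j : F →+* Fb) (act : (k ≃ₐ[K] k) →* RingAut Fb) : Prop extends CE j act where
  top : Submodule.span k (Set.range j) = ⊤
  tr : ∃ t : F, Transcendental k (j t)

variable {j : F →+* Fb} {act : (k ≃ₐ[K] k) →* RingAut Fb}

/-- The semilinear automorphism attached to `τ`. -/
def CE.sa (h : CE j act) (τ : k ≃ₐ[K] k) : SA k Fb := ⟨act τ, τ.toRingEquiv, h.semi τ⟩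

@[simp] lemma CE.sa_s (h : CE j act) (τ : k ≃ₐ[K] k) : (h.sa τ).s = act τ := rfl

@[simp] lemma CE.sa_s0 (h : CE j act) (τ : k ≃ₐ[K] k) (c : k) : (h.sa τ).s0 c = τ c := rfl

lemma CE.v_pl (h : CE j act) (τ : k ≃ₐ[K] k) (P : Place k Fb) (z : F) :
    ((h.sa τ).pl P).v (j z) = P.v (j z) := by
  rw [← (h.sa τ).pl_v P, h.sa_s, h.fixF]

lemma CE.ord_pl (h : CE j act) (τ : k ≃ₐ[K] k) (P : Place k Fb) (z : F) :
    ord ((h.sa τ).pl P) (j z) = ord P (j z) := by rw [ord, h.v_pl, ord]

lemma CE.ev_pl (h : CE j act) (τ : k ≃ₐ[K] k) (P : Place k Fb) (z : F) :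
    ev ((h.sa τ).pl P) (j z) = τ (ev P (j z)) := by
  rw [← h.sa_s0, ← (h.sa τ).ev_pl P, h.sa_s, h.fixF]

/-- `z` is defined over the subfield `E0`. -/
def Fx (act : (k ≃ₐ[K] k) →* RingAut Fb) (E0 : IntermediateField K k) (z : Fb) : Prop :=
  ∀ τ ∈ E0.fixingSubgroup, act τ z = z

/-- The place `P` lies over the valuation ring `O`. -/
def Over (j : F →+* Fb) (P : Place k Fb) (O : ValuationSubring F) : Prop :=
  ∀ w : F, w ∈ O ↔ P.v (j w) ≤ 1

/-- The branch points `Ω` of `f`, a function `x` that separates them and is a local coordinate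
at each of them, and the polynomial `P0` of its values. -/
structure BD (j : F →+* Fb) (f x : F) (Ω : Finset (Place k Fb)) (P0 : K[X]) : Prop where
  odd : OddAt k (j f) Ω
  reg : ∀ c ∈ Ω, c.v (j x) ≤ 1
  unif : ∀ c ∈ Ω, ord c (j x - algebraMap k Fb (ev c (j x))) = 1
  inj : ∀ c ∈ Ω, ∀ c' ∈ Ω, ev c (j x) = ev c' (j x) → c = c'
  pol : P0.map (algebraMap K k) = ∏ c ∈ Ω, (X - C (ev c (j x)))

end ce

end Pool.Agent.P.MP_ab3ecb_nt.Inv
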