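import Pool.Agent.P.MP_ab3ecb_nt.Inv.A.Tame
import Pool.Agent.P.MP_ab3ecb_nt.Inv.A.Invz
import Pool.Agent.P.MP_ab3ecb_nt.Inv.A.Sginv
import Pool.Agent.P.MP_ab3ecb_nt.Inv.A.Padic
import Pool.Agent.P.MP_ab3ecb_nt.Inv.A.Syt
import Pool.Agent.P.MP_ab3ecb_nt.Inv.A.Cp
import Pool.Agent.P.MP_ab3ecb_nt.Inv.A.Cpd
import Pool.Agent.P.MP_ab3ecb_nt.Inv.A.Lift
import Pool.Agent.P.MP_ab3ecb_nt.Inv.A.Lf
import Pool.Agent.P.MP_ab3ecb_nt.Inv.A.Pf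
import Pool.Agent.P.MP_ab3ecb_nt.Inv.A.Recip
import Pool.Agent.P.MP_ab3ecb_nt.Inv.A.Exe
import Pool.Agent.P.MP_ab3ecb_nt.Inv.A.Test
import Pool.Agent.P.MP_ab3ecb_nt.Inv.C.Mom
import Pool.Agent.P.MP_ab3ecb_nt.Inv.C.Ix
import Pool.Agent.P.MP_ab3ecb_nt.Inv.C.Sel
import Pool.Agent.P.MP_ab3ecb_nt.Inv.C.Jsum
import Pool.Agent.P.MP_ab3ecb_nt.Inv.C.Tsb
import Pool.Agent.P.MP_ab3ecb_nt.Inv.C.Sumj
import Pool.Agent.P.MP_ab3ecb_nt.Inv.C.Up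
import Pool.Agent.P.MP_ab3ecb_nt.Inv.C.Lowc
import Pool.Agent.P.MP_ab3ecb_nt.Inv.C.Low
import Pool.Agent.P.MP_ab3ecb_nt.Inv.C.Chb
import Pool.Agent.P.MP_ab3ecb_nt.Inv.C.Count
import Pool.Agent.P.MP_ab3ecb_nt.Inv.E.Tw
import Pool.Agent.P.MP_ab3ecb_nt.Inv.E.Pta
import Pool.Agent.P.MP_ab3ecb_nt.Inv.E.Pt
import Pool.Agent.P.MP_ab3ecb_nt.Inv.E.Els
import Pool.Agent.P.MP_ab3ecb_nt.Inv.E.Lwa
import Pool.Agent.P.MP_ab3ecb_nt.Inv.E.Lwb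
import Pool.Agent.P.MP_ab3ecb_nt.Inv.E.Lwc
import Pool.Agent.P.MP_ab3ecb_nt.Inv.J.Rr
import Pool.Agent.P.MP_ab3ecb_nt.Inv.E.Lwd
import Pool.Agent.P.MP_ab3ecb_nt.Inv.E.Lwe
import Pool.Agent.P.MP_ab3ecb_nt.Inv.E.Lw
import Pool.Agent.P.MP_ab3ecb_nt.Inv.E.Bn
import Pool.Agent.P.MP_ab3ecb_nt.Inv.J.Cedeg
import Pool.Agent.P.MP_ab3ecb_nt.Inv.E.Model
import Pool.Agent.P.MP_ab3ecb_nt.Inv.E.Good
import Pool.Agent.P.MP_ab3ecb_nt.Inv.J.Desc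
import Pool.Agent.P.MP_ab3ecb_nt.Inv.J.Wa
import Pool.Agent.P.MP_ab3ecb_nt.Inv.G.Invapp
import Pool.Agent.P.MP_ab3ecb_nt.Inv.J.Fixe
import Pool.Agent.P.MP_ab3ecb_nt.Inv.G.Over
import Pool.Agent.P.MP_ab3ecb_nt.Inv.G.Trl
import Pool.Agent.P.MP_ab3ecb_nt.Inv.G.Xsep
import Pool.Agent.P.MP_ab3ecb_nt.Inv.G.Poly
import Pool.Agent.P.MP_ab3ecb_nt.Inv.G.Bd
import Pool.Agent.P.MP_ab3ecb_nt.Inv.G.Kpt
import Pool.Agent.P.MP_ab3ecb_nt.Inv.G.Spr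
import Pool.Agent.P.MP_ab3ecb_nt.Inv.G.Fc
import Pool.Agent.P.MP_ab3ecb_nt.Inv.G.Locc
import Pool.Agent.P.MP_ab3ecb_nt.Inv.G.Cert
import Pool.Agent.P.MP_ab3ecb_nt.Inv.G.Lz
import Pool.Agent.P.MP_ab3ecb_nt.Inv.W.Normp
import Pool.Agent.P.MP_ab3ecb_nt.Inv.W.Weil
import Pool.Agent.P.MP_ab3ecb_nt.Inv.W.Quad
import Pool.Agent.P.MP_ab3ecb_nt.Inv.J.Domc
import Pool.Agent.P.MP_ab3ecb_nt.Inv.J.Base
import Pool.Agent.P.MP_ab3ecb_nt.Inv.J.Exta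
import Pool.Agent.P.MP_ab3ecb_nt.Inv.J.Extb
import Pool.Agent.P.MP_ab3ecb_nt.Inv.J.Cl
import Pool.Agent.P.MP_ab3ecb_nt.Inv.J.Univ
import Pool.Agent.P.MP_ab3ecb_nt.Inv.J.Orb
import Pool.Agent.P.MP_ab3ecb_nt.Inv.J.Ns
import Pool.Agent.P.MP_ab3ecb_nt.Inv.J.Der
import Pool.Agent.P.MP_ab3ecb_nt.Inv.J.Dalg
import Pool.Agent.P.MP_ab3ecb_nt.Inv.J.Locd
import Pool.Agent.P.MP_ab3ecb_nt.Inv.J.Rig
import Pool.Agent.P.MP_ab3ecb_nt.Inv.J.Trd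
import Pool.Agent.P.MP_ab3ecb_nt.Inv.J.Gen
import Pool.Agent.P.MP_ab3ecb_nt.Inv.J.Aut
import Pool.Agent.P.MP_ab3ecb_nt.Inv.J.Conj
import Pool.Agent.P.MP_ab3ecb_nt.Inv.J.Half
import Pool.Agent.P.MP_ab3ecb_nt.Inv.J.Prin
import Pool.Agent.P.MP_ab3ecb_nt.Inv.J.Jdiv
import Pool.Agent.P.MP_ab3ecb_nt.Inv.W.Ndg
import Pool.Agent.P.MP_ab3ecb_nt.Inv.W.Pair
import Pool.Agent.P.MP_ab3ecb_nt.Inv.W.La
import Pool.Agent.P.MP_ab3ecb_nt.Inv.W.Key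
import Pool.Agent.P.MP_ab3ecb_nt.Inv.W.Hn
import Pool.Agent.P.MP_ab3ecb_nt.Inv.G.Dich
import Pool.Agent.P.MP_ab3ecb_nt.Inv.G.Frob
import Pool.Agent.P.MP_ab3ecb_nt.Inv.G.Qd
import Pool.Agent.P.MP_ab3ecb_nt.Inv.G.Arith
import Pool.Agent.P.MP_ab3ecb_nt.Inv.J.Jfin
import Pool.Agent.P.MP_ab3ecb_nt.Inv.G.Geo
import Pool.Agent.P.MP_ab3ecb_nt.Inv.J.Doma

/-! All the intermediate statements. -/

namespace Pool.Agent.P.MP_ab3ecb_nt.Inv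

theorem all_TAME : S_TAME := p_TAME
theorem all_INVZ : S_INVZ := p_INVZ
theorem all_SGINV : S_SGINV := p_SGINV all_INVZ
theorem all_PADIC : S_PADIC := p_PADIC
theorem all_SYT : S_SYT := p_SYT
theorem all_CP : S_CP := p_CP all_SYT
theorem all_CPD : S_CPD := p_CPD
theorem all_LIFT : S_LIFT := p_LIFT
theorem all_LF : S_LF := p_LF all_CP all_PADIC
theorem all_PF : S_PF := p_PF all_INVZ all_PADIC
theorem all_RECIP : S_RECIP :=
  p_RECIP all_TAME all_SGINV all_INVZ all_SYT all_CP all_CPD all_LF all_PF all_PADIC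
theorem all_EXE : S_EXE := p_EXE
theorem all_TEST : S_TEST :=
  p_TEST all_TAME all_SGINV all_INVZ all_SYT all_CP all_CPD all_LF all_PF all_EXE
theorem all_MOM : S_MOM := p_MOM
theorem all_IX : S_IX := p_IX
theorem all_SEL : S_SEL := p_SEL
theorem all_JSUM : S_JSUM := p_JSUM
theorem all_TSB : S_TSB := p_TSB
theorem all_SUMJ : S_SUMJ := p_SUMJ
theorem all_UP : S_UP := p_UP all_SEL all_JSUM all_TSB all_SUMJ
theorem all_LOWC : S_LOWC := p_LOWC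
theorem all_LOW : S_LOW := p_LOW all_LOWC all_SEL
theorem all_CHB : S_CHB := p_CHB
theorem all_COUNT : S_COUNT := p_COUNT all_MOM all_TEST all_RECIP all_LIFT
theorem all_TW : S_TW := p_TW
theorem all_PTA : S_PTA := p_PTA
theorem all_PT : S_PT := p_PT all_PTA
theorem all_ELS : S_ELS := p_ELS all_PT all_TW all_TAME all_PADIC
theorem all_LWA : S_LWA := p_LWA
theorem all_LWB : S_LWB := p_LWB
theorem all_LWC : S_LWC := p_LWC
theorem all_RR : S_RR := p_RR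
theorem all_LWD : S_LWD := p_LWD all_RR
theorem all_LWE : S_LWE := p_LWE all_RR all_LWB all_LWC all_LWD
theorem all_LW : S_LW := p_LW all_LWA all_LWB all_LWE
theorem all_BN : S_BN := p_BN
theorem all_CEDEG : S_CEDEG := p_CEDEG
theorem all_MODEL : S_MODEL := p_MODEL all_CEDEG
theorem all_GOOD : S_GOOD := p_GOOD all_BN all_LW all_TAME
theorem all_DESC : S_DESC := p_DESC
theorem all_WA : S_WA := p_WA all_RR
theorem all_INVAPP : S_INVAPP := p_INVAPP all_DESC all_WA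
theorem all_FIXE : S_FIXE := p_FIXE all_DESC
theorem all_OVER : S_OVER := p_OVER all_WA all_FIXE
theorem all_TRL : S_TRL := p_TRL all_DESC all_OVER
theorem all_XSEP : S_XSEP := p_XSEP all_DESC all_WA
theorem all_POLY : S_POLY := p_POLY
theorem all_BD : S_BD := p_BD all_XSEP all_POLY
theorem all_KPT : S_KPT := p_KPT all_OVER all_INVAPP all_FIXE
theorem all_SPR : S_SPR := p_SPR
theorem all_FC : S_FC := p_FC
theorem all_LOCC : S_LOCC := p_LOCC all_OVER all_INVAPP all_FIXE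
theorem all_CERT : S_CERT := p_CERT all_TRL all_SPR all_FC
theorem all_LZ : S_LZ := p_LZ
theorem all_NORMP : S_NORMP := p_NORMP all_WA
theorem all_WEIL : S_WEIL := p_WEIL all_NORMP
theorem all_QUAD : S_QUAD := p_QUAD
theorem all_DOMC : S_DOMC := p_DOMC
theorem all_BASE : S_BASE := p_BASE
theorem all_EXTA : S_EXTA := p_EXTA all_CEDEG
theorem all_EXTB : S_EXTB := p_EXTB all_CEDEG
theorem all_CL : S_CL := p_CL all_EXTA all_EXTB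
theorem all_UNIV : S_UNIV := p_UNIV all_DOMC all_BASE all_CEDEG all_CL all_RR
theorem all_ORB : S_ORB := p_ORB
theorem all_NS : S_NS := p_NS all_ORB
theorem all_DER : S_DER := p_DER
theorem all_DALG : S_DALG := p_DALG
theorem all_LOCD : S_LOCD := p_LOCD all_DALG
theorem all_RIG : S_RIG := p_RIG all_DER all_LOCD
theorem all_TRD : S_TRD := p_TRD
theorem all_GEN : S_GEN := p_GEN all_RIG all_DALG all_TRD
theorem all_AUT : S_AUT := p_AUT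
theorem all_CONJ : S_CONJ := p_CONJ all_AUT all_DOMC
theorem all_HALF : S_HALF := p_HALF all_RIG all_DALG
theorem all_PRIN : S_PRIN := p_PRIN all_FIXE all_ORB
theorem all_JDIV : S_JDIV := p_JDIV all_UNIV all_NS all_GEN all_CONJ all_HALF all_PRIN
theorem all_NDG : S_NDG := p_NDG all_QUAD all_JDIV all_WEIL all_WA
theorem all_PAIR : S_PAIR := p_PAIR all_WEIL all_WA all_NDG
theorem all_LA : S_LA := p_LA
theorem all_KEY : S_KEY := p_KEY all_WEIL all_WA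
theorem all_HN : S_HN := p_HN all_RR
theorem all_DICH : S_DICH := p_DICH all_PAIR all_LA all_KEY all_HN all_INVAPP
theorem all_FROB : S_FROB := p_FROB
theorem all_QD : S_QD := p_QD
theorem all_ARITH : S_ARITH := p_ARITH all_FROB all_QD
theorem all_JFIN : S_JFIN := p_JFIN all_UNIV all_NS all_GEN all_CONJ all_PRIN
theorem all_GEO : S_GEO :=
  p_GEO all_JDIV all_JFIN all_LZ all_ARITH all_DICH all_INVAPP all_LOCC all_CERT
theorem all_DOMA : S_DOMA := p_DOMA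

end Pool.Agent.P.MP_ab3ecb_nt.Inv
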