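import Pool.Agent.P.MP_ab3ecb_nt.Inv.Defs
import Pool.Agent.P.MP_ab3ecb_nt.Char2
import Pool.Agent.P.MP_ab3ecb_nt.Defs3

/-!
Arithmetic definitions for the twists of a double cover over a number field.
-/

namespace Pool.Agent.P.MP_ab3ecb_nt.Inv

open Polynomial NumberField IsDedekindDomain TensorProduct Finset
open scoped Classical

set_option linter.unusedSectionVars false

/-! ### Places -/

/-- Finite places. -/
abbrev Pl (K : Type) [Field K] := HeightOneSpectrum (𝓞 K)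

/-- Places of degree one, with their reduction maps. -/
abbrev GP (K : Type) [Field K] := Σ p : Nat.Primes, (𝓞 K →+* ZMod p.1)

section places

variable {K : Type} [Field K] [NumberField K]

/-- The completion. -/
abbrev Kv (v : Pl K) := v.adicCompletion K

/-- The integers of the completion. -/
noncomputable abbrev Ov (v : Pl K) := v.adicCompletionIntegers K

/-- `d` has odd valuation at `v`. -/
def Od (v : Pl K) (d : K) : Prop := Odd (WithZero.log (v.valuation K d))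

/-- The place attached to a reduction map. -/
noncomputable def GP.pl (z : GP K) : Pl K where
  asIdeal := RingHom.ker z.2
  isPrime := haveI : Fact z.1.1.Prime := ⟨z.1.2⟩; RingHom.ker_isPrime z.2
  ne_bot h := by
    have h1 : ((z.1.1 : ℕ) : 𝓞 K) ∈ RingHom.ker z.2 := by simp [RingHom.mem_ker]
    rw [h, Ideal.mem_bot, Nat.cast_eq_zero] at h1
    exact z.1.2.ne_zero h1

lemma GP.mem_pl {z : GP K} {a : 𝓞 K} : a ∈ z.pl.asIdeal ↔ z.2 a = 0 := Iff.rfl

/-- The places away from `M` where `d` has odd valuation are those of `s` (degree one, over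
distinct rational primes) and those of `J` (over other rational primes). -/
structure Dec (M : ℕ) (d : K) (s : Finset (GP K)) (J : Finset (Pl K)) : Prop where
  od : ∀ v : Pl K, (M : 𝓞 K) ∉ v.asIdeal → (Od v d ↔ v ∈ J ∨ ∃ z ∈ s, z.pl = v)
  inj : ∀ z ∈ s, ∀ w ∈ s, z.1 = w.1 → z = w
  good : ∀ z ∈ s, ¬ z.1.1 ∣ M
  junk : ∀ v ∈ J, (M : 𝓞 K) ∉ v.asIdeal ∧ ∀ z ∈ s, ((z.1.1 : ℕ) : 𝓞 K) ∉ v.asIdeal

/-- The places of `J` with the residues of `a`. -/
noncomputable def jd (J : Finset (Pl K)) (a : Pl K → 𝓞 K) :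
    Finset (Σ v : Pl K, 𝓞 K ⧸ v.asIdeal) :=
  J.image fun v => ⟨v, Ideal.Quotient.mk v.asIdeal (a v)⟩

/-- The places of `s` as typed primes. -/
noncomputable def gd {T : Type} (ix : GP K → T) (s : Finset (GP K)) : Finset (ℕ × T) :=
  s.image fun z => (z.1.1, ix z)

/-- The number of good places of degree one over `p`. -/
noncomputable def rk {T : Type} [Fintype T] (ix : GP K → T) (good : GP K → Prop) (p : ℕ) : ℕ :=
  (univ.filter fun τ : T => ∃ z, good z ∧ z.1.1 = p ∧ ix z = τ).card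

/-- The logarithmic sum over the good places of degree one. -/
noncomputable def EK {T : Type} [Fintype T] (ix : GP K → T) (good : GP K → Prop) (M X : ℕ) : ℝ :=
  ∑ p ∈ Qs M X, (rk ix good p : ℝ) / p

/-- `F0` has a root at the place `z`, which does not divide `M`. -/
def Rt (F0 : (𝓞 K)[X]) (M : ℕ) (z : GP K) : Prop := ¬ z.1.1 ∣ M ∧ ∃ t, F0.eval₂ z.2 t = 0

/-- The twist by `d` has points everywhere locally. -/
def ELS {F : Type} [Field F] (ι : K →+* F) (f : F) (d : K) : Prop :=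
  ∃ (E : Type) (_ : Field E) (_ : CharZero E) (j : F →+* E) (y : E),
    IsTw f (ι d) j y ∧ Nonempty (KAdelic (j.comp ι))

/-- The twist by `d` has a nonempty Brauer-Manin set. -/
def BMS {F : Type} [Field F] (ι : K →+* F) (f : F) (d : K) : Prop :=
  ∃ (E : Type) (_ : Field E) (_ : CharZero E) (j : F →+* E) (y : E),
    IsTw f (ι d) j y ∧ ∃ P : KAdelic (j.comp ι), KInBM P

/-- The point `P` of the base curve lifts to the twist by `d`. -/
def Lifts {K F L : Type} [Field K] [Field F] [Field L] {ι : K →+* F} {ρ : K →+* L} (f : F) (d : K)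
    (P : KPt ι ρ) : Prop :=
  Branch f P.O ∨ ∃ u : P.O, IsUnit u ∧ IsSquare (f * u) ∧ IsSquare (ρ d * P.φ u)

/-- Every root of `P0` gives a branch point. -/
def BRP {K F : Type} [Field K] [Field F] (ι : K →+* F) (f : F) (P0 : K[X]) : Prop :=
  ∀ (L : Type) [Field L] (ρ : K →+* L) (t : L), P0.eval₂ ρ t = 0 → ∃ P : KPt ι ρ, Branch f P.O

/-- At the places away from `M`, the twists by elements of even valuation have local points. -/
def GoodM {F : Type} [Field F] (ι : K →+* F) (f : F) (M : ℕ) : Prop :=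
  ∀ v : Pl K, (M : 𝓞 K) ∉ v.asIdeal → ∀ d : K, d ≠ 0 → ¬ Od v d →
    ∃ φ : F →+* Kv v, φ.comp ι = algebraMap K (Kv v) ∧ IsSquare (algebraMap K (Kv v) d * φ f)

/-- `a0` identifies `A` with the ring of integers of the subfield `E0` of `k`. -/
structure Ord {k A : Type} [Field k] [Algebra K k] [CommRing A] (E0 : IntermediateField K k)
    (a0 : A →+* k) (i : 𝓞 K →+* A) : Prop where
  inj : Function.Injective a0
  rng : ∀ z : k, (∃ a, a0 a = z) ↔ z ∈ E0 ∧ IsIntegral ℤ z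
  comp : ∀ c, a0 (i c) = algebraMap K k (algebraMap (𝓞 K) K c)

end places

/-! ### Tame local fields -/

/-- The quadratic character. -/
noncomputable def chk {k : Type} [CommRing k] (a : k) : ℤ :=
  if a = 0 then 0 else if IsSquare a then 1 else -1

lemma chk_eq {k : Type} [Field k] [Fintype k] [DecidableEq k] (a : k) :
    chk a = quadraticChar k a := by
  rw [chk, quadraticChar_apply, quadraticCharFun]
  split_ifs <;> rfl

lemma chi_eq_chk {q : ℕ} (hq : q.Prime) (a : ZMod q) : chi q a = chk a := by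
  have : Fact q.Prime := ⟨hq⟩
  rw [chi_eq, chk_eq]

lemma abs_chk_le {k : Type} [CommRing k] (a : k) : |(chk a : ℝ)| ≤ 1 := by
  unfold chk
  split_ifs <;> simp

/-- `R` is a henselian discrete valuation ring with uniformizer the rational prime `q`, fraction
field `L` and finite residue field `k` of odd characteristic. -/
structure Tame (q : ℕ) {R : Type} (L : Type) {k : Type} [CommRing R] [Field L] [Algebra R L]
    [Field k] (res : R →+* k) : Prop where
  prime : q.Prime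
  fin : Finite k
  inj : Function.Injective (algebraMap R L)
  surj : Function.Surjective res
  ker : ∀ z, res z = 0 ↔ (q : R) ∣ z
  unit : ∀ z, IsUnit z ↔ res z ≠ 0
  two : (2 : k) ≠ 0
  hensel : ∀ (P : R[X]) (a : R), P.Monic → res (P.eval a) = 0 →
    res (P.derivative.eval a) ≠ 0 → ∃ b, P.eval b = 0 ∧ res b = res a
  dec : ∀ z : L, z ≠ 0 → ∃ (n : ℤ) (u : R), IsUnit u ∧ z = algebraMap R L u * (q : L) ^ n

/-- The class `x` is tame with sign `s`. -/
def SgT (q : ℕ) {R L k : Type} [CommRing R] [Field L] [Algebra R L] [Field k] (res : R →+* k)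
    (x : Br L) (s : ℤ) : Prop :=
  ∃ v : R, IsUnit v ∧ x = sy (q : L) (algebraMap R L v) ∧ chk (res v) = s

/-! ### The diagonal -/

section diag

variable {O B : Type} [CommRing O] [CommRing B]

/-- The ideal on which the two maps `a`, `b` become equal. -/
def dI (a b : O →+* B) : Ideal B := Ideal.span (Set.range fun z => a z - b z)

/-- `e` is the idempotent of the part of `B` where `a = b`. -/
def IsD (a b : O →+* B) (e : B) : Prop :=
  e * e = e ∧ (∀ z, e * a z = e * b z) ∧ 1 - e ∈ dI a b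

/-- The element equal to `u` on the part `e` and to `1` on the rest. -/
def pj (e u : B) : B := e * u + (1 - e)

end diag

section tests

variable {O : Type} [CommRing O] {A : Type} [CommRing A] [Module.Free ℤ A] [Module.Finite ℤ A]

/-- The kernel of `R ⊗[ℤ] A → R ⊗[O] A`. -/
noncomputable def dT {R : Type} [CommRing R] (ρ : O →+* R) (i : O →+* A) : Ideal (R ⊗[ℤ] A) :=
  dI ((algebraMap R (R ⊗[ℤ] A)).comp ρ) ((inc A R).comp i)

/-- The quadratic character at the primes of `k ⊗ A` that do not contain `h`. -/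
noncomputable def Xk {k : Type} [CommRing k] (h : k ⊗[ℤ] A) (z : A) : ℤ :=
  chk (Algebra.norm k (ide h * inc A k z + (1 - ide h)))

lemma Xe_eq_Xk {q : ℕ} (hq : q.Prime) (h : ZMod q ⊗[ℤ] A) (z : A) : Xe q h z = Xk h z :=
  chi_eq_chk hq _

/-- The value `H(t)` in `k ⊗ A`. -/
noncomputable abbrev evT {k : Type} [CommRing k] (H : A[X]) (t : k) : k ⊗[ℤ] A :=
  H.eval₂ (inc A k) (algebraMap k (k ⊗[ℤ] A) t)

/-- The polynomial `F0` of the branch points and its norm `F = F0 * F1`. -/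
structure Pol (F : ℤ[X]) (F0 F1 : O[X]) (M : ℕ) : Prop where
  M0 : M ≠ 0
  two : 2 ∣ M
  mF : F.Monic
  m0 : F0.Monic
  m1 : F1.Monic
  mul : F0 * F1 = F.map (Int.castRingHom O)
  ev : Even F.natDegree
  sep : ∃ u v : ℤ[X], u * F + v * derivative F = C (M : ℤ)
  gen : ∀ z : O, ∃ R : ℤ[X], F0 ∣ R.map (Int.castRingHom O) - C ((M : O) * z)
  du : Dual O M

variable {F : Type} [Field F]

/-- The shape of `f` at all valuation rings in which `M` is a unit. -/
def Cert0 (ρ0 : O →+* F) (f x : F) (F0 : O[X]) (M : ℕ) : Prop :=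
  ∀ W : ValuationSubring F, IsUnit ((M : ℤ) : W) →
    (∃ w : W, IsUnit w ∧ IsSquare (f * w)) ∨
      (x ∈ W ∧ ∃ w : W, IsUnit w ∧ IsSquare (f * w * F0.eval₂ ρ0 x))

/-- The shape of `f` and of the test function `γ` on `F ⊗[O] A` at all valuation rings in which
`M` is a unit: `γ` has odd order exactly at the branch points where `G(x)` vanishes, and for
`(θ, n) ∈ V` its value at the branch point `x = θ` is `n` up to squares. -/
def Cert (ρ0 : O →+* F) (f x : F) (F0 F1 : O[X]) (M : ℕ) (i : O →+* A) (G : A[X])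
    (γ : F ⊗[ℤ] A) (V : Set (A × A)) : Prop :=
  IsUnit γ ∧ ∀ (W : ValuationSubring F) (ρ : O →+* W), (∀ z, (ρ z : F) = ρ0 z) →
    IsUnit ((M : ℤ) : W) →
    (∃ (w : W) (u : W ⊗[ℤ] A), IsUnit w ∧ IsSquare (f * w) ∧ IsUnit u ∧
      ∃ s, γ * tm A W.subtype u - s * s ∈ dT ρ0 i) ∨
    ∃ (a w : W) (u : W ⊗[ℤ] A), (a : F) = x ∧ IsUnit (F1.eval₂ ρ a) ∧ IsUnit w ∧
      IsSquare (f * w * F0.eval₂ ρ0 x) ∧ IsUnit u ∧
      (∃ s, γ * tm A W.subtype (u * evT G a) - s * s ∈ dT ρ0 i) ∧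
      ∀ z ∈ V, ∀ (k : Type) [Field k] (μ : W ⊗[ℤ] A →+* k), (∀ b ∈ dT ρ i, μ b = 0) →
        μ (algebraMap W _ a) = μ (inc A W z.1) →
        μ (inc A W z.2) ≠ 0 ∧ IsSquare (μ (u * evT G a * inc A W z.2))

lemma Cert.mono {ρ0 : O →+* F} {f x : F} {F0 F1 : O[X]} {M M' : ℕ} {i : O →+* A} {G : A[X]}
    {γ : F ⊗[ℤ] A} {V : Set (A × A)} (h : Cert ρ0 f x F0 F1 M i G γ V) (hM : M ∣ M') :
    Cert ρ0 f x F0 F1 M' i G γ V :=
  ⟨h.1, fun W ρ h1 h2 => h.2 W ρ h1
    (isUnit_of_dvd_unit (Int.cast_dvd_cast _ _ (Int.natCast_dvd_natCast.mpr hM)) h2)⟩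

lemma Dual.mono {r r' : ℤ} (h : Dual O r) (hr : r ∣ r') : Dual O r' := fun f => by
  obtain ⟨c, rfl⟩ := hr
  obtain ⟨z, hz⟩ := h f
  exact ⟨c • z, fun w => by rw [smul_mul_assoc, map_smul, hz, smul_eq_mul]; ring⟩

lemma Pol.mono {P : ℤ[X]} {F0 F1 : O[X]} {M M' : ℕ} (h : Pol P F0 F1 M) (hM : M ∣ M')
    (h0 : M' ≠ 0) : Pol P F0 F1 M' := by
  obtain ⟨c, rfl⟩ := hM
  refine ⟨h0, h.two.mul_right _, h.mF, h.m0, h.m1, h.mul, h.ev, ?_, fun z => ?_,
    Dual.mono h.du (Int.natCast_dvd_natCast.mpr (dvd_mul_right _ _))⟩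
  · obtain ⟨u, v, h1⟩ := h.sep
    exact ⟨u * C (c : ℤ), v * C (c : ℤ), by rw [Nat.cast_mul, map_mul, ← h1]; ring⟩
  · obtain ⟨R, h1⟩ := h.gen (c * z)
    exact ⟨R, by rwa [Nat.cast_mul, mul_assoc]⟩

variable {K : Type} [Field K] [NumberField K]

/-- The class `cp γ α` has sign `s` at the point `P` over the completion at `v`. -/
def LocK {E : Type} [Field E] (γ : E ⊗[ℤ] A) (α : A) (v : Pl K) (P : Pt E (Kv v)) (s : ℤ) :
    Prop :=
  ∃ u : P.O ⊗[ℤ] A, IsUnit u ∧ IsSquare (γ * tm A P.O.subtype u) ∧ (s = 1 ∨ s = -1) ∧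
    ∀ (B : Type) [Ring B] [Algebra (Kv v) B], cl (Kv v) B = cp (tm A P.φ u) (inc A (Kv v) α) →
      InvV v B (if s = -1 then ((1 / 2 : ℚ) : AddCircle (1 : ℚ)) else 0)

/-- The total sign of a test at the place `z`. -/
noncomputable def tvK (H : A[X]) (s : Finset (GP K)) (J : Finset (Pl K)) (a : Pl K → 𝓞 K)
    (z : GP K) (lb : A →+* ZMod z.1.1) (π n : A) : ℤ :=
  Xe z.1.1 (evT H (z.2 (a z.pl))) π * chi z.1.1 (lb n) *
    (∏ w ∈ s.erase z, Xe w.1.1 (evT H (w.2 (a w.pl))) π) *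
    ∏ v ∈ J, Xk (evT H (Ideal.Quotient.mk v.asIdeal (a v))) π

end tests

/-! ### The tower -/

section tower

variable {K : Type} [Field K] [NumberField K] {Ω Γ : Type} [Fintype Ω]

/-- The orders attached to the Frobenius classes `σ : Γ`, the branch points `fix σ` rational
over them, and their reductions at the places of degree one. -/
structure TwK (F0 : (𝓞 K)[X]) (M : ℕ) (A : Γ → Type) [∀ σ, CommRing (A σ)]
    (i : ∀ σ, 𝓞 K →+* A σ) (θ : ∀ σ, Ω → A σ) (fix : Γ → Finset Ω) (fr : GP K → Γ)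
    (lb : ∀ z : GP K, A (fr z) →+* ZMod z.1.1) (G : Set (Equiv.Perm Ω)) : Prop where
  comp : ∀ z, (lb z).comp (i (fr z)) = z.2
  root : ∀ σ, ∀ c ∈ fix σ, F0.eval₂ (i σ) (θ σ c) = 0
  all : ∀ z : GP K, ¬ z.1.1 ∣ M → ∀ t, F0.eval₂ z.2 t = 0 → ∃ c ∈ fix (fr z), lb z (θ _ c) = t
  one : 1 ∈ G
  conj : ∀ g ∈ G, ∀ z : GP K, ¬ z.1.1 ∣ M → ∀ σ, ∃ (k : Type) (_ : Field k) (μ : A σ →+* k)
    (ι : ZMod z.1.1 →+* k), μ.comp (i σ) = ι.comp z.2 ∧
      ∀ c ∈ fix σ, ∀ c' ∈ fix (fr z), (ι (lb z (θ _ c')) = μ (θ σ c) ↔ c' = g c)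
  quad : ∀ Λ : Finset Ω, (orb G Λ).card ≤ 2 → Dns fun p => p.Prime ∧ ¬ p ∣ M ∧
    ∃ z : GP K, z.1.1 = p ∧ (fix (fr z)).Nonempty ∧ Disjoint (fix (fr z)) Λ

/-- The test functions: for two branch points `a`, `b` rational at `z`, either an unramified test
`γ σ s` separates them, or there is a test function for the pair. -/
structure TsK {F S : Type} [Field F] (ρ0 : 𝓞 K →+* F) (f x : F) (F0 F1 : (𝓞 K)[X]) (M : ℕ)
    (A : Γ → Type) [∀ σ, CommRing (A σ)] [∀ σ, Module.Free ℤ (A σ)] [∀ σ, Module.Finite ℤ (A σ)]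
    (i : ∀ σ, 𝓞 K →+* A σ) (θ : ∀ σ, Ω → A σ) (fix : Γ → Finset Ω) (fr : GP K → Γ)
    (lb : ∀ z : GP K, A (fr z) →+* ZMod z.1.1) (γ : ∀ σ, S → F ⊗[ℤ] A σ)
    (n : ∀ σ, S → Ω → A σ) : Prop where
  unr : ∀ σ s, Cert ρ0 f x F0 F1 M (i σ) 1 (γ σ s) {w | ∃ c ∈ fix σ, w = (θ σ c, n σ s c)}
  pair : ∀ z : GP K, ¬ z.1.1 ∣ M → ∀ a ∈ fix (fr z), ∀ b ∈ fix (fr z), a ≠ b →
    (∀ s, chi z.1.1 (lb z (n _ s a)) * chi z.1.1 (lb z (n _ s b)) = 1) →
    ∃ (G : (A (fr z))[X]) (g : F ⊗[ℤ] A (fr z)) (m : A (fr z)),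
      G * ((X - C (θ _ a)) * (X - C (θ _ b))) = F0.map (i _) ∧
      Cert ρ0 f x F0 F1 M (i _) G g {(θ _ a, m)}
  split : Dns fun p => p.Prime ∧ ¬ p ∣ M ∧
    ∃ z : GP K, z.1.1 = p ∧ fix (fr z) = univ ∧ ∀ s c, n (fr z) s c = 1

end tower

/-! ### The moment bound -/

/-- The typed sets of primes that pass all tests. -/
def SurvK {L J T : Type} (σ : S3 L J ℕ) (typ : L → T) (S : Finset (ℕ × T)) : Prop :=
  ∃ lab : ℕ → L, ∀ z ∈ S, lab z.1 ∈ σ.R z.1 ∧ typ (lab z.1) = z.2 ∧ ∀ j ∈ σ.gens (lab z.1),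
    σ.sg z.1 (lab z.1) j * ∏ b ∈ (S.image Prod.fst).erase z.1, σ.ψ z.1 (lab z.1) j b (lab b) = 1

/-- The typed sets of primes not dividing `M` with product at most `X`. -/
noncomputable def TS (T : Type) [Fintype T] (M X : ℕ) : Finset (Finset (ℕ × T)) :=
  (Qs M X ×ˢ (univ : Finset T)).powerset.filter fun S => ∏ z ∈ S, z.1 ≤ X

/-- The size of the main term. -/
noncomputable def MT (E : ℕ → ℝ) (X : ℕ) : ℝ := X / Real.log X * Real.exp (E X)

end Pool.Agent.P.MP_ab3ecb_nt.Inv
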