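import Pool.Agent.P.MP_ab3ecb_nt.Inv.BaseA

/-!
The diagonal idempotent, and the tame structure of the completions.
-/

namespace Pool.Agent.P.MP_ab3ecb_nt.Inv

open Polynomial NumberField IsDedekindDomain TensorProduct
open scoped Classical

set_option linter.unusedSectionVars false

section diag

variable {O B C : Type} [CommRing O] [CommRing B] [CommRing C] {a b : O →+* B} {e e' u z : B}

lemma sub_mem_dI (a b : O →+* B) (z : O) : a z - b z ∈ dI a b := Ideal.subset_span ⟨z, rfl⟩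

lemma mul_eq_zero_of_mem_dI (h : ∀ z, e * a z = e * b z) (hz : z ∈ dI a b) : e * z = 0 := by
  have : dI a b ≤ LinearMap.ker (LinearMap.mulLeft B e) :=
    Ideal.span_le.2 (by rintro _ ⟨w, rfl⟩; simp [mul_sub, h])
  exact this hz

lemma IsD.mem_iff (h : IsD a b e) : z ∈ dI a b ↔ e * z = 0 :=
  ⟨mul_eq_zero_of_mem_dI h.2.1, fun h0 => by
    have := (dI a b).mul_mem_right z h.2.2
    rwa [sub_mul, h0, one_mul, sub_zero] at this⟩

/-- An element on which the two maps agree is carried by the diagonal idempotent. -/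
lemma IsD.mul_eq (h : IsD a b e) (h' : ∀ z, e' * a z = e' * b z) : e' * e = e' := by
  linear_combination -mul_eq_zero_of_mem_dI h' h.2.2

lemma IsD.unique (h : IsD a b e) (h' : IsD a b e') : e = e' := by
  rw [← h.mul_eq h'.2.1, mul_comm, h'.mul_eq h.2.1]

lemma map_dI (Φ : B →+* C) (hz : z ∈ dI a b) : Φ z ∈ dI (Φ.comp a) (Φ.comp b) := by
  have : dI a b ≤ (dI (Φ.comp a) (Φ.comp b)).comap Φ :=
    Ideal.span_le.2 (by
      rintro _ ⟨w, rfl⟩
      simpa using sub_mem_dI (Φ.comp a) (Φ.comp b) w)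
  exact this hz

lemma IsD.map (h : IsD a b e) (Φ : B →+* C) : IsD (Φ.comp a) (Φ.comp b) (Φ e) :=
  ⟨by rw [← map_mul, h.1], fun z => by simpa using congrArg Φ (h.2.1 z),
    by simpa using map_dI Φ h.2.2⟩

lemma IsD.eq_one (h : IsD a a e) : e = 1 := by
  have := h.mul_eq (e' := 1) fun _ => rfl
  rwa [one_mul] at this

lemma IsD.eq_zero (h : IsD a b e) {z : O} (hz : IsUnit (a z - b z)) : e = 0 :=
  hz.mul_right_cancel (by rw [mul_sub, h.2.1, sub_self, zero_mul])

lemma map_pj (Φ : B →+* C) (e u : B) : Φ (pj e u) = pj (Φ e) (Φ u) := by simp [pj]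

lemma pj_one (e : B) : pj e 1 = 1 := by simp [pj]

lemma pj_mul (he : e * e = e) (u w : B) : pj e (u * w) = pj e u * pj e w := by
  unfold pj
  linear_combination (-1 + u + w - u * w) * he

lemma isUnit_pj (he : e * e = e) (hu : IsUnit u) : IsUnit (pj e u) := by
  simpa [pj] using unit_idem he hu isUnit_one

lemma IsD.pj_congr (h : IsD a b e) {w : B} (hz : u - w ∈ dI a b) : pj e u = pj e w := by
  unfold pj
  linear_combination h.mem_iff.1 hz

lemma IsD.pj_sub (h : IsD a b e) (u : B) : pj e u - u ∈ dI a b :=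
  h.mem_iff.2 (by unfold pj; linear_combination (u - 1) * h.1)

lemma IsD.isSquare (h : IsD a b e) {s : B} (hz : z - s * s ∈ dI a b) : IsSquare (pj e z) :=
  ⟨pj e s, by rw [h.pj_congr hz, pj_mul h.1]⟩

variable [Module.Free ℤ O] [Module.Finite ℤ O] [Nontrivial O] {r : ℤ}

lemma exists_isD (hd : Dual O r) (hr : IsUnit (r : B)) (a b : O →+* B) : ∃ e, IsD a b e := by
  obtain ⟨ε, h1, h2⟩ := exists_idem (hd.perf hr) (lft a)
  refine ⟨lft b ε, ?_, fun z => ?_, ?_⟩
  · rw [← map_mul, h1, h2, one_smul]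
  · rw [← lft_inc b, ← map_mul, mul_comm ε, h1, lft_inc, map_smul, smul_eq_mul, mul_comm]
  · have : ∀ w, lft a w - lft b w ∈ dI a b := fun w => by
      induction w using TensorProduct.induction_on with
      | zero => simp
      | tmul x y => simpa [lft, ← mul_sub] using (dI a b).mul_mem_left x (sub_mem_dI a b y)
      | add x y hx hy =>
        rw [map_add, map_add, add_sub_add_comm]
        exact (dI a b).add_mem hx hy
    exact h2 ▸ this ε

/-- Two maps to a local ring that agree modulo the maximal ideal are equal. -/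
lemma eq_of_local [IsLocalRing B] (hd : Dual O r) (hr : IsUnit (r : B)) {a b : O →+* B}
    (h : ∀ z, ¬ IsUnit (a z - b z)) : a = b := by
  obtain ⟨e, he⟩ := exists_isD hd hr a b
  have h1 : dI a b ≤ IsLocalRing.maximalIdeal B :=
    Ideal.span_le.2 (by rintro _ ⟨w, rfl⟩; exact h w)
  have h2 : IsUnit e := (IsLocalRing.isUnit_or_isUnit_one_sub_self e).resolve_right (h1 he.2.2)
  exact RingHom.ext fun z => h2.mul_left_cancel (he.2.1 z)

end diag

lemma Cert.cert0 {O A F : Type} [CommRing O] [Algebra.IsIntegral ℤ O] [CommRing A]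
    [Module.Free ℤ A] [Module.Finite ℤ A] [Field F] {ρ0 : O →+* F} {f x : F} {F0 F1 : O[X]}
    {M : ℕ} {i : O →+* A} {G : A[X]} {γ : F ⊗[ℤ] A} {V : Set (A × A)}
    (h : Cert ρ0 f x F0 F1 M i G γ V) : Cert0 ρ0 f x F0 M := by
  intro W hW
  have h1 : ∀ z, ρ0 z ∈ W := fun z => by
    have h2 : IsIntegral W (ρ0 z) :=
      ((Algebra.IsIntegral.isIntegral (R := ℤ) z).map ρ0.toIntAlgHom).tower_top
    obtain ⟨y, hy⟩ := IsIntegrallyClosed.isIntegral_iff.1 h2
    exact hy ▸ y.2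
  rcases h.2 W (ρ0.codRestrict W h1) (fun _ => rfl) hW with
    ⟨w, -, k1, k2, -⟩ | ⟨a, w, -, rfl, -, k1, k2, -⟩
  exacts [Or.inl ⟨w, k1, k2⟩, Or.inr ⟨a.2, w, k1, k2⟩]

variable {K : Type} [Field K] [NumberField K]

lemma GoodM.mono {F : Type} [Field F] {ι : K →+* F} {f : F} {M M' : ℕ} (h : GoodM ι f M)
    (hM : M ∣ M') : GoodM ι f M' := fun v hv =>
  h v fun h1 => hv (v.asIdeal.mem_of_dvd (Nat.cast_dvd_cast hM) h1)

/-- The tame structure of the completion at `v`, with residue map extending `l`. -/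
structure TameV (v : Pl K) (q : ℕ) {k : Type} [Field k] (l : 𝓞 K →+* k) (res : Ov v →+* k) :
    Prop extends Tame q (Kv v) res where
  comp : ∀ a, res (algebraMap (𝓞 K) (Ov v) a) = l a
  card : Nat.card k = Ideal.absNorm v.asIdeal
  val : Valued.v (q : Kv v) = WithZero.exp (-1)
  od : ∀ (d : K) (u : Ov v) (n : ℤ), IsUnit u →
    algebraMap K (Kv v) d = algebraMap (Ov v) (Kv v) u * (q : Kv v) ^ n → (Od v d ↔ Odd n)

/-- The norm of a junk datum. -/
noncomputable def Nj (j : Finset (Σ v : Pl K, 𝓞 K ⧸ v.asIdeal)) : ℕ :=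
  ∏ x ∈ j, Ideal.absNorm x.1.asIdeal

/-- Junk data: roots of `F0` at a set of places whose norm is a powerful number. -/
def JD (F0 : (𝓞 K)[X]) (j : Finset (Σ v : Pl K, 𝓞 K ⧸ v.asIdeal)) : Prop :=
  ∀ x ∈ j, F0.eval₂ (Ideal.Quotient.mk x.1.asIdeal) x.2 = 0 ∧
    ∀ p : ℕ, p.Prime → (p : 𝓞 K) ∈ x.1.asIdeal → p ^ 2 ∣ Nj j

end Pool.Agent.P.MP_ab3ecb_nt.Inv
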