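import Pool.Agent.P.MP_ab3ecb_nt.Inv.BaseG
import Pool.Agent.P.MP_ab3ecb_nt.Inv.Diag

/-!
The theorem of Riemann as a structure, generic divisors, the Weil pairing and plane models.
-/

namespace Pool.Agent.P.MP_ab3ecb_nt.Inv

open WithZero Polynomial Module TensorProduct
open Pool.Agent.P.MP_6f117a_ag (Place FF Model Reg)
open scoped IntermediateField Classical Polynomial.Bivariate

set_option linter.unusedSectionVars false

section rr

variable {k E : Type} [Field k] [Field E] [Algebra k E]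

/-- Principal divisors. -/
def Prin (D : Dv k E) : Prop := ∃ z : E, z ≠ 0 ∧ dv k z = D

variable (k E) in
/-- The theorem of Riemann, with genus `g`. -/
structure RR (g : ℕ) : Prop where
  fd : ∀ D : Dv k E, FiniteDimensional k (LS D)
  rie : ∀ D : Dv k E, deg D + 1 - g ≤ finrank k (LS D)
  big : ∃ c : ℤ, ∀ D : Dv k E, c ≤ deg D → (finrank k (LS D) : ℤ) = deg D + 1 - g
  exc : ∀ D : Dv k E, deg D + 1 - g < finrank k (LS D) →
    {Q | finrank k (LS (D + Finsupp.single Q 1)) ≠ finrank k (LS D)}.Finite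
  le : ∀ D : Dv k E, 0 ≤ deg D → (finrank k (LS D) : ℤ) ≤ deg D + 1
  step : ∀ (D : Dv k E) Q, finrank k (LS (D + Finsupp.single Q 1)) ≤ finrank k (LS D) + 1

variable (k) in
/-- The Weil pairing on functions with even divisor. -/
structure IsPair (e : E → E → ℤˣ) : Prop where
  eq : ∀ f g, Ev2 k f → Ev2 k g → Dj k f g →
    ((e f g : ℤ) : k) * evD g (hd k f) = evD f (hd k g)
  mul : ∀ f f' g, Ev2 k f → Ev2 k f' → Ev2 k g → e (f * f') g = e f g * e f' g
  symm : ∀ f g, Ev2 k f → Ev2 k g → e f g = e g f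
  sq : ∀ f g, f ≠ 0 → Ev2 k g → e (f * f) g = 1
  inv : ∀ (σ : SA k E) f g, Ev2 k f → Ev2 k g → e (σ.s f) (σ.s g) = e f g
  ndg : ∀ f, Ev2 k f → (∀ g, Ev2 k g → e f g = 1) → IsSquare f

variable [IsAlgClosed k] [FF k E] {D D' A A' : Dv k E} {g : ℕ} {x y z : E}

lemma Prin.zero : Prin (0 : Dv k E) := ⟨1, one_ne_zero, dv_one⟩

lemma Prin.add (h : Prin D) (h' : Prin D') : Prin (D + D') := by
  obtain ⟨z, h1, rfl⟩ := h
  obtain ⟨w, h2, rfl⟩ := h'
  exact ⟨z * w, mul_ne_zero h1 h2, dv_mul h1 h2⟩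

lemma Prin.neg (h : Prin D) : Prin (-D) := by
  obtain ⟨z, h1, rfl⟩ := h
  exact ⟨z⁻¹, inv_ne_zero h1, dv_inv z⟩

lemma Prin.sub (h : Prin D) (h' : Prin D') : Prin (D - D') := by
  rw [sub_eq_add_neg]
  exact h.add h'.neg

lemma Prin.nsmul (h : Prin D) (n : ℕ) : Prin (n • D) := by
  obtain ⟨z, h1, rfl⟩ := h
  exact ⟨z ^ n, pow_ne_zero n h1, dv_pow z n⟩

lemma Prin.dm (h : Prin D) (σ : SA k E) : Prin (σ.dm D) := by
  obtain ⟨z, h1, rfl⟩ := h
  exact ⟨σ.s z, (map_ne_zero σ.s).2 h1, σ.dv_s z⟩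

lemma Prin.deg_eq (h : Prin (D - D')) : deg D = deg D' := by
  obtain ⟨z, -, h1⟩ := h
  have := deg_dv (k := k) z
  rwa [h1, map_sub, sub_eq_zero] at this

lemma Prin.finrank_eq (h : Prin (D - D')) : finrank k (LS D) = finrank k (LS D') := by
  obtain ⟨z, h0, h1⟩ := h
  rw [← finrank_LS_add_dv h0 D', h1, add_sub_cancel]

lemma exists_eff (h : finrank k (LS D) ≠ 0) : ∃ A, 0 ≤ A ∧ Prin (A - D) := by
  obtain ⟨z, h1, h0⟩ := Submodule.exists_mem_ne_zero_of_ne_bot (p := LS D) fun h1 =>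
    h (by rw [h1, finrank_bot])
  exact ⟨_, (mem_LS' h0).1 h1, z, h0, (add_sub_cancel_right _ _).symm⟩

lemma RR.exists_eff (R : RR k E g) (h : (g : ℤ) ≤ deg D) : ∃ A, 0 ≤ A ∧ Prin (A - D) :=
  Inv.exists_eff fun h1 => by
    have := R.rie D
    omega

lemma const_of_finrank (h : finrank k (LS A) = 1) (hA : 0 ≤ A) (hz : z ∈ LS A) :
    ∃ c, algebraMap k E c = z := by
  have h1 : (1 : E) ∈ LS A := (mem_LS' one_ne_zero).2 (by simpa using hA)
  obtain ⟨c, hc⟩ := (finrank_eq_one_iff_of_nonzero' (⟨1, h1⟩ : LS A)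
    (by simp [Subtype.ext_iff])).1 h ⟨z, hz⟩
  exact ⟨c, by simpa [Algebra.smul_def, Subtype.ext_iff] using hc⟩

/-- An effective divisor that does not move is determined by its class. -/
lemma eff_unique (h : finrank k (LS A) = 1) (hA : 0 ≤ A) (hA' : 0 ≤ A') (hp : Prin (A' - A)) :
    A' = A := by
  obtain ⟨z, h0, h1⟩ := hp
  obtain ⟨c, rfl⟩ := const_of_finrank h hA ((mem_LS' h0).2 (by rwa [h1, sub_add_cancel]))
  rw [dv_const, eq_comm, sub_eq_zero] at h1
  exact h1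

lemma RR.minl (R : RR k E g) (D : Dv k E) (P : Place k E) :
    ∃ r : ℤ, finrank k (LS (D + Finsupp.single P r)) = 1 := by
  obtain ⟨r, h1, h2⟩ := Int.exists_least_of_bdd
    (P := fun r => finrank k (LS (D + Finsupp.single P r)) ≠ 0)
    ⟨-deg D, fun r hr => by_contra fun h => hr (by
      rw [LS_eq_bot (by rw [map_add, deg_single]; omega), finrank_bot])⟩
    ⟨g - deg D, fun h => by
      have := R.rie (D + Finsupp.single P (g - deg D))
      rw [map_add, deg_single] at this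
      omega⟩
  have h3 := R.step (D + Finsupp.single P (r - 1)) P
  have h4 : finrank k (LS (D + Finsupp.single P (r - 1))) = 0 := by_contra fun h => by
    have := h2 (r - 1) h
    omega
  rw [add_assoc, ← Finsupp.single_add, sub_add_cancel, h4] at h3
  exact ⟨r, by omega⟩

lemma Ev2.mul (hx : Ev2 k x) (hy : Ev2 k y) : Ev2 k (x * y) :=
  ⟨mul_ne_zero hx.1 hy.1, fun P => ord_mul P hx.1 hy.1 ▸ (hx.2 P).add (hy.2 P)⟩

lemma ev2_sq (hx : x ≠ 0) : Ev2 k (x * x) :=
  ⟨mul_ne_zero hx hx, fun P => ⟨_, ord_mul P hx hx⟩⟩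

lemma Ev2.inv (hx : Ev2 k x) : Ev2 k x⁻¹ :=
  ⟨inv_ne_zero hx.1, fun P => ord_inv P x ▸ (hx.2 P).neg⟩

lemma Ev2.s (hx : Ev2 k x) (σ : SA k E) : Ev2 k (σ.s x) :=
  ⟨(map_ne_zero σ.s).2 hx.1, σ.pl.surjective.forall.2 fun P => σ.ord_pl P x ▸ hx.2 P⟩

end rr

section ce

variable {K F k Fb : Type} [Field K] [Field F] [Algebra K F] [Field k] [Algebra K k] [Field Fb]
  [Algebra k Fb]

/-- The compositum ring of `E0` and `F`. -/
def Sp (j : F →+* Fb) (E0 : IntermediateField K k) : AddSubmonoid Fb :=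
  AddSubmonoid.closure {z | ∃ c ∈ E0, ∃ w, z = algebraMap k Fb c * j w}

variable {j : F →+* Fb} {act : (k ≃ₐ[K] k) →* RingAut Fb}

/-- The classification of the places of a constant field extension: the extensions `ext P` of
the places of `F`, and the places `pl φ` given by embeddings of `F` in the constants. -/
structure Cl (h : CE j act) (ext : Place K F → Place k Fb) (pl : (F →ₐ[K] k) → Place k Fb) :
    Prop where
  ext_v : ∀ P w, (ext P).v (j w) = P.v w
  pl_v : ∀ φ w, (pl φ).v (j w - algebraMap k Fb (φ w)) < 1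
  pl_ord : ∀ φ t, Transcendental K t → ord (pl φ) (j t - algebraMap k Fb (φ t)) = 1
  all : ∀ Q, (∃ P, Q = ext P) ∨ ∃ φ, Q = pl φ
  sa_ext : ∀ τ P, (h.sa τ).pl (ext P) = ext P
  sa_pl : ∀ (τ : k ≃ₐ[K] k) φ, (h.sa τ).pl (pl φ) = pl ((τ : k →ₐ[K] k).comp φ)
  ext_inj : Function.Injective ext
  pl_inj : Function.Injective pl
  ne : ∀ P φ, ext P ≠ pl φ

/-- The divisor of a tuple of embeddings. -/
noncomputable def gD (pl : (F →ₐ[K] k) → Place k Fb) {r : ℕ} (φ : Fin r → F →ₐ[K] k) :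
    Dv k Fb := ∑ i, Finsupp.single (pl (φ i)) 1

/-- Generic tuples of embeddings. -/
def Gen (t : F) {r : ℕ} (φ : Fin r → F →ₐ[K] k) : Prop := AlgebraicIndependent K fun i => φ i t

/-- The derivation `δ` kills the coordinates of the place `Q`. -/
def Kil (j : F →+* Fb) (δ : Derivation K k k) (Q : Place k Fb) : Prop :=
  ∀ w : F, Q.v (j w) ≤ 1 → δ (ev Q (j w)) = 0

section cl

variable {h : CE j act} {ext : Place K F → Place k Fb} {pl : (F →ₐ[K] k) → Place k Fb}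

lemma Cl.ev_pl (c : Cl h ext pl) (φ : F →ₐ[K] k) (w : F) : ev (pl φ) (j w) = φ w :=
  ev_eq (c.pl_v φ w)

lemma Cl.pl_le (c : Cl h ext pl) (φ : F →ₐ[K] k) (w : F) : (pl φ).v (j w) ≤ 1 :=
  le_one_of_sub (c.pl_v φ w)

lemma Cl.ord_ext (c : Cl h ext pl) (P : Place K F) (w : F) : ord (ext P) (j w) = ord P w := by
  rw [ord, ord, c.ext_v]

lemma Cl.map_ext (c : Cl h ext pl) (C : Dv K F) (P : Place K F) :
    C.mapDomain ext (ext P) = C P := Finsupp.mapDomain_apply c.ext_inj C P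

lemma Cl.map_pl (c : Cl h ext pl) (C : Dv K F) (φ : F →ₐ[K] k) : C.mapDomain ext (pl φ) = 0 :=
  Finsupp.mapDomain_of_notMem_range _ _ fun ⟨P, hP⟩ => c.ne P φ hP

lemma deg_map (ext : Place K F → Place k Fb) (C : Dv K F) : deg (C.mapDomain ext) = deg C := by
  induction C using Finsupp.induction_linear with
  | zero => simp
  | add a b ha hb => rw [Finsupp.mapDomain_add, map_add, map_add, ha, hb]
  | single P n => simp

lemma Cl.dm_map (c : Cl h ext pl) (τ : k ≃ₐ[K] k) (C : Dv K F) :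
    (h.sa τ).dm (C.mapDomain ext) = C.mapDomain ext := by
  induction C using Finsupp.induction_linear with
  | zero => simp
  | add a b ha hb => rw [Finsupp.mapDomain_add, map_add, ha, hb]
  | single P n => simp [c.sa_ext]

lemma Cl.dm_gD (c : Cl h ext pl) (τ : k ≃ₐ[K] k) {r : ℕ} (φ : Fin r → F →ₐ[K] k) :
    (h.sa τ).dm (gD pl φ) = gD pl fun i => (τ : k →ₐ[K] k).comp (φ i) := by
  simp [gD, map_sum, c.sa_pl]

lemma deg_gD (pl : (F →ₐ[K] k) → Place k Fb) {r : ℕ} (φ : Fin r → F →ₐ[K] k) :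
    deg (gD pl φ) = r := by simp [gD, map_sum]

lemma gD_nonneg (pl : (F →ₐ[K] k) → Place k Fb) {r : ℕ} (φ : Fin r → F →ₐ[K] k) :
    0 ≤ gD pl φ := Finset.sum_nonneg fun _ _ => Finsupp.single_nonneg.2 zero_le_one

variable [IsAlgClosed K] [FF K F]

lemma Cl.ev_ext (c : Cl h ext pl) {P : Place K F} {w : F} (hw : P.v w ≤ 1) :
    ev (ext P) (j w) = algebraMap K k (ev P w) :=
  ev_eq (by rw [← h.comm, ← map_sub, c.ext_v]; exact ev_spec hw)

lemma Cl.kil_ext (c : Cl h ext pl) (δ : Derivation K k k) (P : Place K F) : Kil j δ (ext P) :=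
  fun w hw => by rw [c.ev_ext (by rwa [c.ext_v] at hw), δ.map_algebraMap]

lemma Cl.dv_j [IsAlgClosed k] [FF k Fb] (c : Cl h ext pl) (w : F) :
    dv k (j w) = (dv K w).mapDomain ext := by
  ext Q
  rcases c.all Q with ⟨P, rfl⟩ | ⟨φ, rfl⟩
  · rw [c.map_ext, dv_apply, dv_apply, c.ord_ext]
  rw [c.map_pl, dv_apply]
  rcases eq_or_ne w 0 with rfl | h0
  · simp
  have h1 : j w ≠ 0 := (map_ne_zero j).2 h0
  have h2 := (le_one_iff h1).1 (c.pl_le φ w)
  have h3 := (le_one_iff (inv_ne_zero h1)).1 (map_inv₀ j w ▸ c.pl_le φ w⁻¹)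
  rw [ord_inv] at h3
  omega

end cl

variable {A : Type} [CommRing A]

/-- The map from `F ⊗ A` to the constant field extension. -/
noncomputable def th (j : F →+* Fb) (a0 : A →+* k) : F ⊗[ℤ] A →+* Fb :=
  (Algebra.TensorProduct.lift j.toIntAlgHom ((algebraMap k Fb).comp a0).toIntAlgHom
    fun _ _ => Commute.all _ _).toRingHom

@[simp] lemma th_tmul (j : F →+* Fb) (a0 : A →+* k) (w : F) (a : A) :
    th j a0 (w ⊗ₜ a) = j w * algebraMap k Fb (a0 a) := by simp [th]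

end ce

section plane

variable {k E : Type} [Field k] [Field E] [Algebra k E]

/-- `E = k(x, y)` is the function field of the plane curve `Ψ = 0`. -/
structure Pc (Ψ : k[X][Y]) (n : ℕ) (x y : E) : Prop where
  monic : Ψ.Monic
  pos : 0 < Ψ.natDegree
  le : Ψ.natDegree ≤ n
  coef : ∀ i, (Ψ.coeff i).natDegree ≤ n
  tr : Transcendental k x
  ker : ∀ G : k[X][Y], aevalAeval x y G = 0 ↔ Ψ ∣ G
  top : IntermediateField.adjoin k {x, y} = ⊤

variable (k) in
/-- The span of the monomials of weight at most `s`. -/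
def Wt (n : ℕ) (x y : E) (s : ℕ) : Submodule k E :=
  Submodule.span k {z | ∃ a l : ℕ, a + n * l ≤ s ∧ z = x ^ a * y ^ l}

/-- The place `P` is centred at the point `(a, b)`. -/
def Ctr (x y : E) (P : Place k E) (a b : k) : Prop :=
  P.v (x - algebraMap k E a) < 1 ∧ P.v (y - algebraMap k E b) < 1

end plane

end Pool.Agent.P.MP_ab3ecb_nt.Inv
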