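import Pool.Agent.P.MP_ab3ecb_nt.Defs

/-!
Definitions for the Brauer-Manin set of a smooth projective curve over a number field, given by
its function field, and for the quadratic twists of a double cover.
-/

namespace Pool.Agent.P.MP_ab3ecb_nt.Inv

open Polynomial NumberField IsDedekindDomain

/-- A point of the curve over `K` with function field `ι : K → E`, with values in the field
`ρ : K → L`: a local ring of the curve with a local homomorphism to `L` over `K`. -/
structure KPt {K E L : Type} [Field K] [Field E] [Field L] (ι : K →+* E) (ρ : K →+* L)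
    extends Pt E L where
  mem : ∀ c, ι c ∈ O
  comm : ∀ c, φ ⟨ι c, mem c⟩ = ρ c

/-- The double cover `y ^ 2 = f` is ramified at the local ring `O`. -/
def Branch {F : Type} [Field F] (f : F) (O : ValuationSubring F) : Prop :=
  ¬ ∃ u : O, IsUnit u ∧ IsSquare (f * u)

/-- `E = F(y)` with `d y ^ 2 = f` is the function field of the twist by `d`. -/
def IsTw {F E : Type} [Field F] [Field E] (f d : F) (j : F →+* E) (y : E) : Prop :=
  j d * y ^ 2 = j f ∧ Subfield.closure (Set.range j ∪ {y}) = ⊤

/-- The residue field of the point `P`, inside the field of values. -/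
def Res {K E L : Type} [Field K] [Field E] [Field L] [Algebra K L] {ι : K →+* E}
    (P : KPt ι (algebraMap K L)) : IntermediateField K L :=
  IntermediateField.adjoin K (Set.range P.φ)

/-- Let `L` be a local field with ring of integers `R` and residue field with `N` elements. `D` is
the cyclic algebra built from the unramified extension `L(θ)` of degree `n`, its Frobenius
automorphism, and `c`. -/
def IsCyc (R L D : Type) [CommRing R] [IsLocalRing R] [Field L] [Algebra R L] [Ring D]
    [Algebra L D] (N n : ℕ) (c : L) : Prop :=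
  ∃ (θ u : D) (g h : R[X]), g.natDegree = n ∧ Module.finrank L D = n ^ 2 ∧
    Algebra.adjoin L {θ, u} = ⊤ ∧ g.Monic ∧ Irreducible (g.map (IsLocalRing.residue R)) ∧
    h.map (IsLocalRing.residue R) = 0 ∧ aeval θ (g.map (algebraMap R L)) = 0 ∧
    u * θ = (θ ^ N + aeval θ (h.map (algebraMap R L))) * u ∧ c ≠ 0 ∧ u ^ n = algebraMap L D c

variable {K : Type} [Field K] [NumberField K]

/-- Invariant at the finite place `v`: `B` is Brauer equivalent to a cyclic algebra `D` as above,
and `q = v(c) / n`. -/
def InvV (v : HeightOneSpectrum (𝓞 K)) (B : Type) [Ring B] [Algebra (v.adicCompletion K) B]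
    (q : AddCircle (1 : ℚ)) : Prop :=
  ∃ (D : Type) (_ : Ring D) (_ : Algebra (v.adicCompletion K) D) (n : ℕ) (c : v.adicCompletion K),
    BrEq (v.adicCompletion K) B D ∧
    IsCyc (v.adicCompletionIntegers K) (v.adicCompletion K) D (Ideal.absNorm v.asIdeal) n c ∧
    q = (((-WithZero.log (Valued.v c) : ℤ) / n : ℚ) : AddCircle (1 : ℚ))

/-- Adelic points of the curve with function field `ι : K → E`: a point at every real place and
at every finite place. -/
structure KAdelic {E : Type} [Field E] (ι : K →+* E) where
  inf : (ρ : K →+* ℝ) → KPt ι ρ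
  fin : (v : HeightOneSpectrum (𝓞 K)) → KPt ι (algebraMap K (v.adicCompletion K))

/-- The adelic point `P` is orthogonal to the Brauer group of the curve. -/
def KInBM {E : Type} [Field E] [CharZero E] {ι : K →+* E} (P : KAdelic ι) : Prop :=
  ∀ (A : Type) [Ring A] [Algebra E A], Unram E A →
    ∀ (r : (K →+* ℝ) → AddCircle (1 : ℚ)) (q : HeightOneSpectrum (𝓞 K) →₀ AddCircle (1 : ℚ)),
      (∀ ρ, ValInv A (P.inf ρ).toPt InvR (r ρ)) →
      (∀ v, ValInv A (P.fin v).toPt (InvV v) (q v)) → ∑ ρ, r ρ + q.sum (fun _ a => a) = 0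

/-- The norm of the product of the primes at which `d` has odd valuation. -/
noncomputable def Ht (d : K) : ℕ :=
  ∏ᶠ (v : HeightOneSpectrum (𝓞 K)) (_ : Odd (WithZero.log (v.valuation K d))),
    Ideal.absNorm v.asIdeal

/-- The number of classes modulo squares of nonzero `d` of height at most `X` with property
`p`. -/
noncomputable def Cnt (p : K → Prop) (X : ℕ) : ℕ :=
  Set.ncard {q : Kˣ ⧸ (powMonoidHom 2 : Kˣ →* Kˣ).range |
    ∃ d : Kˣ, (d : Kˣ ⧸ (powMonoidHom 2 : Kˣ →* Kˣ).range) = q ∧ Ht (d : K) ≤ X ∧ p d}

end Pool.Agent.P.MP_ab3ecb_nt.Inv
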