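import Pool.Agent.P.MP_ab3ecb_nt.Inv.J.Iface
import Pool.Agent.P.MP_ab3ecb_nt.Inv.G.Iface
import Pool.Agent.P.MP_ab3ecb_nt.Inv.C.Iface
import Pool.Agent.P.MP_ab3ecb_nt.Inv.E.Iface

/-! Assembly of the theorem on twists from the intermediate statements. -/

namespace Pool.Agent.P.MP_ab3ecb_nt.Inv

open Polynomial NumberField Filter Asymptotics Module Finset
open Pool.Agent.P.MP_6f117a_ag (Place FF)
open scoped IntermediateField Classical

set_option maxHeartbeats 800000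
set_option linter.unusedSectionVars false

variable {K : Type} [Field K] [NumberField K]

lemma main_zero {p : K → Prop} (h : ∀ d, d ≠ 0 → ¬ p d) (X : ℕ) : Cnt p X = 0 := by
  refine (congrArg Set.ncard (Set.eq_empty_of_forall_notMem ?_)).trans (Set.ncard_empty _)
  rintro q ⟨d, -, -, h1⟩
  exact h d d.ne_zero h1

lemma main_mono (hSEL : S_SEL) {p p' : K → Prop} (h : ∀ d, p d → p' d) (X : ℕ) :
    Cnt p X ≤ Cnt p' X :=
  Set.ncard_le_ncard (fun _ ⟨d, h1, h2, h3⟩ => ⟨d, h1, h2, h d h3⟩)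
    (((hSEL K).2.2.1 X).subset fun _ ⟨d, h1, h2, _⟩ => ⟨d, h1, h2⟩)

lemma main_ht (hSEL : S_SEL) {d : K} (hd : d ≠ 0) :
    Ht d ≠ 0 ∧ ∀ v : Pl K, Od v d → (Ht d : 𝓞 K) ∈ v.asIdeal := by
  have h1 := (hSEL K).2.1 d hd
  rw [(hSEL K).1 d h1.toFinset fun v => by simp]
  refine ⟨Finset.prod_ne_zero_iff.2 fun v _ => Ideal.absNorm_eq_zero_iff.not.2 v.ne_bot,
    fun v hv => v.asIdeal.mem_of_dvd (Nat.cast_dvd_cast (Finset.dvd_prod_of_mem
      (fun v : Pl K => Ideal.absNorm v.asIdeal) (by simpa using hv))) (Ideal.absNorm_mem _)⟩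

lemma main_EK {T : Type} [Fintype T] (ix : GP K → T) (good : GP K → Prop) (M : ℕ) :
    Monotone (EK ix good M) ∧ ∀ X, 0 ≤ EK ix good M X :=
  ⟨fun _ _ h => Finset.sum_le_sum_of_subset_of_nonneg
    (Finset.filter_subset_filter _ (range_mono (Nat.succ_le_succ h))) fun _ _ _ => by positivity,
    fun _ => Finset.sum_nonneg fun _ _ => by positivity⟩

/-- The image of a point under a homomorphism of the field of values. -/
def KPt.push {K F L L' : Type} [Field K] [Field F] [Field L] [Field L'] {ι : K →+* F}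
    {ρ : K →+* L} {ρ' : K →+* L'} (P : KPt ι ρ) (ψ : L →+* L') (h : ∀ c, ψ (ρ c) = ρ' c) :
    KPt ι ρ' where
  O := P.O
  φ := ψ.comp P.φ
  loc := ⟨fun a ha => P.loc.1 a (Ne.isUnit fun h0 => ha.ne_zero (by
    rw [RingHom.comp_apply, h0, map_zero]))⟩
  mem := P.mem
  comm c := by rw [RingHom.comp_apply, P.comm, h]

lemma main_rat (hTW : S_TW) (hPT : S_PT) {F : Type} [Field F] {ι : K →+* F} {f : F} (hf : f ≠ 0)
    (P : KPt ι (RingHom.id K)) : ∃ d, d ≠ 0 ∧ ELS ι f d := by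
  have := RingHom.charZero_iff ι.injective |>.1 inferInstance
  obtain ⟨d, h0, h1⟩ : ∃ d : K, d ≠ 0 ∧ ∀ (L : Type) [Field L] (ρ : K →+* L),
      ∃ Q : KPt ι ρ, Lifts f d Q := by
    by_cases h : Branch f P.O
    · exact ⟨1, one_ne_zero, fun L _ ρ => ⟨P.push ρ fun _ => rfl, Or.inl h⟩⟩
    · obtain ⟨u, h1, h2⟩ := not_not.1 h
      exact ⟨P.φ u, (h1.map _).ne_zero, fun L _ ρ =>
        ⟨P.push ρ fun _ => rfl, Or.inr ⟨u, h1, h2, _, rfl⟩⟩⟩
  obtain ⟨E, _, _, j, y, h2⟩ := hTW F f (ι d) ((map_ne_zero ι).2 h0)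
  exact ⟨d, h0, E, _, inferInstance, j, y, h2,
    ⟨⟨fun ρ => ((hPT K F E ℝ ι ρ f d j y hf h0 h2).2 (h1 _ _)).some,
      fun v => ((hPT K F E _ ι _ f d j y hf h0 h2).2 (h1 _ _)).some⟩⟩⟩

lemma main_desc {F k : Type} [Field F] [Field k] [Algebra K k] {ι : K →+* F}
    (P : KPt ι (algebraMap K k)) (h : ∀ z, P.φ z ∈ (algebraMap K k).fieldRange) :
    ∃ Q : KPt ι (RingHom.id K), Q.O = P.O := by
  let Q : KPt ι (algebraMap K k).rangeRestrictField :=
    ⟨⟨P.O, P.φ.codRestrict _ h, ⟨fun a ha => P.loc.1 a (ha.map (Subfield.subtype _))⟩⟩, P.mem,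
      fun c => Subtype.ext (P.comm c)⟩
  exact ⟨Q.push (algebraMap K k).rangeRestrictFieldEquiv.symm fun c =>
    (algebraMap K k).rangeRestrictFieldEquiv.symm_apply_apply c, rfl⟩

theorem main_inv (hDOMA : S_DOMA) (hBASE : S_BASE) (hCEDEG : S_CEDEG) (hBD : S_BD) (hKPT : S_KPT)
    (hMODEL : S_MODEL) (hGOOD : S_GOOD) (hGEO : S_GEO) (hCOUNT : S_COUNT) (hUP : S_UP)
    (hLOW : S_LOW) (hELS : S_ELS) (hCHB : S_CHB) (hIX : S_IX) (hPT : S_PT) (hTW : S_TW)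
    (hSEL : S_SEL) (F : Type) [Field F] [Algebra K F]
    (hF : ∃ x : F, Transcendental K x ∧ FiniteDimensional K⟮x⟯ F)
    (hK : ∀ z : F, IsAlgebraic K z → z ∈ (algebraMap K F).range) (f : F)
    (h5 : 5 ≤ Set.ncard {P : KPt (algebraMap K F) (algebraMap K (AlgebraicClosure K)) |
      Branch f P.O})
    (hq : ∀ P : KPt (algebraMap K F) (algebraMap K (AlgebraicClosure K)), Branch f P.O →
      finrank K (IntermediateField.adjoin K (Set.range P.φ)) = 2 →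
      ∃ Q : KPt (algebraMap K F) (algebraMap K (AlgebraicClosure K)), Branch f Q.O ∧
        ¬ Set.range P.φ ⊆ Set.range Q.φ) :
    ((Nonempty (KPt (algebraMap K F) (RingHom.id K)) ∨
      ∃ X, (Cnt (ELS (algebraMap K F) f) X : ℝ) ≠ 0) → (fun X : ℕ => (X : ℝ) / Real.log X)
        =O[atTop] fun X => (Cnt (ELS (algebraMap K F) f) X : ℝ)) ∧ ∃ c : ℝ, 0 < c ∧
      (fun X : ℕ => (Cnt (fun d : K =>
        ∃ (E : Type) (_ : Field E) (_ : CharZero E) (j : F →+* E) (y : E),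
          IsTw f (algebraMap K F d) j y ∧
          (∃ P : KAdelic (j.comp (algebraMap K F)), KInBM P) ∧
          ¬ (Nonempty (KPt (j.comp (algebraMap K F)) (RingHom.id K)) ∧
            ∃ P : KPt (algebraMap K F) (RingHom.id K), Branch f P.O)) X : ℝ))
        =O[atTop] fun X : ℕ => (Cnt (ELS (algebraMap K F) f) X : ℝ) / Real.log X ^ c := by
  obtain ⟨x0, hx0, _⟩ := hF
  set k := AlgebraicClosure K
  obtain ⟨Fb, _, _, j, act, hce, htop⟩ := hBASE K F k (hDOMA K F k hK)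
  obtain ⟨h1, h2⟩ := hCEDEG K F k Fb j act hce x0 hx0
  have := (h2 inferInstance).1
  have hgs : GS j act := ⟨hce, htop inferInstance, x0, h1⟩
  have hf : f ≠ 0 := by
    rintro rfl
    obtain ⟨P, hP⟩ := Set.nonempty_of_ncard_ne_zero ((lt_of_lt_of_le (by norm_num) h5).ne')
    exact hP ⟨1, isUnit_one, 0, by simp⟩
  obtain ⟨x, Ω, Pz, F0, F1, M0, hbd, hpol, hev, hx⟩ := hBD K F k Fb j act hgs f hf
  obtain ⟨b1, b2, b3, b4⟩ := hKPT K F k Fb j act hgs f x Ω _ hbd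
  have h6 : 6 ≤ Ω.card := by
    obtain ⟨r, hr⟩ := hev
    have : 5 ≤ Ω.card := h5.trans b1
    omega
  have hne : Ω.Nonempty := card_pos.1 (by omega)
  obtain ⟨c0, hc0⟩ := hne
  have hodd := (hbd.odd.2 c0).2 hc0
  obtain ⟨Φ, m1, m2, m3⟩ := hMODEL K F k Fb j act hce (PL.ff_of_finite K F F x0).1 f
    (fun h => by
      obtain ⟨c, rfl⟩ := hK f h
      rw [hce.comm, ord_const] at hodd
      exact Int.not_odd_iff_even.2 Even.zero hodd) (by
      rintro ⟨s, hs⟩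
      have h0 : s ≠ 0 := fun h0 => hbd.odd.1 (by rw [hs, h0, mul_zero])
      rw [hs, ord_mul _ h0 h0] at hodd
      exact Int.not_odd_iff_even.2 ⟨_, rfl⟩ hodd)
  obtain ⟨Mg, g1, g2⟩ := hGOOD K F k (algebraMap K F) f Φ m1 m2 m3
  obtain ⟨T, _, ix, hix⟩ := hIX K
  obtain ⟨C1, c1, c2⟩ := hLOW K T ix hix
  have hdeg : 0 < F0.natDegree := by
    have := congrArg natDegree hbd.pol
    rw [(hpol.m0.map _).natDegree_map, hpol.m0.natDegree_map,
      natDegree_finsetProd_X_sub_C_eq_card] at this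
    omega
  have low : ∀ d0, d0 ≠ 0 → ELS (algebraMap K F) f d0 → ∀ M : ℕ, M ≠ 0 →
      M0 * Mg * C1 * Ht d0 ∣ M → ∃ c : ℝ, 0 < c ∧ ∀ᶠ X : ℕ in atTop,
        c * MT (EK ix (Rt F0 M) M) X ≤ Cnt (ELS (algebraMap K F) f) X := fun d0 h0 h1 M h2 h3 => by
    have h4 : ∀ v : Pl K, Od v d0 → (M : 𝓞 K) ∈ v.asIdeal := fun v hv => v.asIdeal.mem_of_dvd
      (Nat.cast_dvd_cast ((dvd_mul_left _ _).trans h3)) ((main_ht hSEL h0).2 v hv)
    exact c2 M h2 (((dvd_mul_left _ _).mul_right _).trans h3) _ _ d0 (fun z hz => hz.1)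
      (hCHB K F0 M hpol.m0 hdeg h2) h0 h4 (hELS K F _ f Pz F0 F1 M d0 hf
        (hpol.mono ((((dvd_mul_right _ _).mul_right _).mul_right _).trans h3) h2) b4
        (g2.mono ((((dvd_mul_left _ _).mul_right _).mul_right _).trans h3)) h0 h4 h1)
  have hM : ∀ d0 : K, d0 ≠ 0 → M0 * Mg * C1 * Ht d0 ≠ 0 := fun d0 h0 =>
    mul_ne_zero (mul_ne_zero (mul_ne_zero hpol.M0 g1) c1) (main_ht hSEL h0).1
  refine ⟨fun h => ?_, ?_⟩
  · obtain ⟨d0, h0, h1⟩ : ∃ d, d ≠ 0 ∧ ELS (algebraMap K F) f d := by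
      rcases h with ⟨⟨P⟩⟩ | ⟨X, hX⟩
      · exact main_rat hTW hPT hf P
      · by_contra h1
        exact hX (Nat.cast_eq_zero.2 (main_zero (fun d k1 k2 => h1 ⟨d, k1, k2⟩) X))
    obtain ⟨c, hc, h2⟩ := low d0 h0 h1 _ (hM d0 h0) dvd_rfl
    refine IsBigO.of_bound c⁻¹ ?_
    filter_upwards [h2] with X hX
    have h3 : 0 ≤ (X : ℝ) / Real.log X := by positivity
    rw [Real.norm_of_nonneg h3, Real.norm_natCast, le_inv_mul_iff₀ hc]
    exact le_trans (mul_le_mul_of_nonneg_left (le_mul_of_one_le_right h3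
      (Real.one_le_exp ((main_EK _ _ _).2 X))) hc.le) hX
  by_cases hr : ∃ P : KPt (algebraMap K F) (RingHom.id K), Branch f P.O
  · refine ⟨1, one_pos, (isBigO_zero _ _).congr_left fun X =>
      (Nat.cast_eq_zero.2 (main_zero ?_ X)).symm⟩
    rintro d h0 ⟨E, _, _, j', y, h1, -, h2⟩
    exact h2 ⟨(hPT K F E K _ _ f d j' y hf h0 h1).2 (hr.imp fun _ => Or.inl), hr⟩
  by_cases hb : ∃ d, d ≠ 0 ∧ BMS (algebraMap K F) f d
  swap
  · refine ⟨1, one_pos, (isBigO_zero _ _).congr_left fun X =>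
      (Nat.cast_eq_zero.2 (main_zero ?_ X)).symm⟩
    rintro d h0 ⟨E, _, _, j', y, h1, h2, -⟩
    exact hb ⟨d, h0, E, _, inferInstance, j', y, h1, h2⟩
  obtain ⟨d0, h0, hb⟩ := hb
  obtain ⟨Γ, S, _, _, A, _, _, _, _, i, θ, fix, fr, lb, G, γ, n, M1, e1, e2⟩ :=
    hGEO K F k Fb j act hgs f x Ω Pz F0 F1 M0 hbd hpol ⟨c0, hc0⟩ fun a ha h2 => by
      obtain ⟨P, p1, p2⟩ := b2 a ha
      have := IntermediateField.adjoin.finiteDimensional
        (Algebra.IsIntegral.isIntegral (R := K) (ev a (j x)))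
      have p3 := finrank_pos (R := K) (M := K⟮ev a (j x)⟯)
      have p4 : finrank K K⟮ev a (j x)⟯ ≠ 1 := fun p4 => by
        obtain ⟨Q, p5⟩ := main_desc P fun z => by
          have : P.φ z ∈ (K⟮ev a (j x)⟯ : Set k) := p2 ▸ Set.mem_range_self z
          rwa [IntermediateField.finrank_eq_one_iff.1 p4, SetLike.mem_coe,
            IntermediateField.mem_bot] at this
        exact hr ⟨Q, p5 ▸ p1⟩
      have p6 : finrank K K⟮ev a (j x)⟯ = 2 := by omega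
      obtain ⟨Q, q1, q2⟩ := hq P p1 (by rw [p2, IntermediateField.adjoin_self]; exact p6)
      obtain ⟨c, q3, q4⟩ := b3 Q q1
      exact ⟨c, q3, fun q5 => q2 (p2 ▸ q4 ▸ IntermediateField.adjoin_simple_le_iff.2 q5)⟩
  obtain ⟨C0, n1, n2⟩ := hCOUNT K F Ω Γ S T A ix hix (by rwa [Fintype.card_coe])
  have hM' := mul_ne_zero (hM d0 h0) (mul_ne_zero e1 n1)
  obtain ⟨t1, t2, t3⟩ := e2 _ hM' ((dvd_mul_right _ _).mul_left _)
  obtain ⟨Sv, s1, s2⟩ := n2 _ f x Pz F0 F1 _ i θ fix fr lb G γ n ((dvd_mul_left _ _).mul_left _) hf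
    (hx ⟨c0, hc0⟩) (hpol.mono ((((dvd_mul_right _ _).mul_right _).mul_right _).mul_right _) hM')
    t1 t2 t3 ⟨d0, hb⟩
  obtain ⟨c, hc, u1⟩ := hUP K T ix hix F0 _ _ _ Sv hpol.m0 hM' (main_EK _ _ _).1 (main_EK _ _ _).2
    s1 s2
  obtain ⟨c', hc', u2⟩ := low d0 h0 (by
    obtain ⟨E, _, _, j', y, h1, P, -⟩ := hb
    exact ⟨E, _, inferInstance, j', y, h1, ⟨P⟩⟩) _ hM' (dvd_mul_right _ _)
  refine ⟨c, hc, (IsBigO.of_bound' (Eventually.of_forall fun X => ?_)).trans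
    (u1.trans (IsBigO.of_bound c'⁻¹ ?_))⟩
  · rw [Real.norm_natCast, Real.norm_natCast, Nat.cast_le]
    exact main_mono hSEL (fun d ⟨E, _, _, j', y, h1, h2, _⟩ =>
      ⟨E, _, inferInstance, j', y, h1, h2⟩) X
  · filter_upwards [u2] with X hX
    rw [Real.norm_of_nonneg (by unfold MT; positivity), Real.norm_of_nonneg (by positivity),
      ← mul_div_assoc]
    exact div_le_div_of_nonneg_right ((le_inv_mul_iff₀ hc').mpr hX) (by positivity)

end Pool.Agent.P.MP_ab3ecb_nt.Inv
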