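import Pool.Agent.P.MP_6f117a_ag.Genus

/-!
Places of function fields in one variable, in any characteristic.
-/

open WithZero Polynomial IsDedekindDomain Function
open Pool.Agent.P.MP_6f117a_ag hiding model exists_poles finite_supp prod_formula step_one step_nat
  step_many exists_pole eq_zero_of_lt sum_zeros
open scoped IntermediateField nonZeroDivisors

namespace Pool.Agent.P.MP_ab3ecb_nt.Inv.PL

section place

theorem fin_of_inj {A B C : Type} [CommRing A] [CommRing B] [CommRing C] [IsNoetherianRing A]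
    (f : A →+* B) (ψ : B →+* C) (hψ : Function.Injective ψ) (h : (ψ.comp f).Finite) :
    f.Finite := by
  let _ := f.toAlgebra
  let _ := (ψ.comp f).toAlgebra
  have : Module.Finite A C := h
  let g : B →ₗ[A] C :=
    { toFun := ψ
      map_add' := map_add ψ
      map_smul' := fun a b => map_mul ψ (f a) b }
  exact Module.Finite.of_injective g hψ

theorem frob_finite (k : Type) [Field k] [IsAlgClosed k] (p n : ℕ) [ExpChar k p] :
    (iterateFrobenius k[X] p n).Finite := by
  refine RingHom.IsIntegral.to_finite (fun x => ⟨X ^ p ^ n - C x,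
    monic_X_pow_sub_C x (expChar_pow_pos k p n).ne', by simp [iterateFrobenius_def]⟩) ?_
  refine RingHom.FiniteType.of_comp_finiteType (f := (C : k →+* k[X])) ?_
  have e : (iterateFrobenius k[X] p n).comp (C : k →+* k[X]) =
      (C : k →+* k[X]).comp (iterateFrobenius k p n) := by
    ext c : 1
    simp [iterateFrobenius_def]
  rw [e]
  exact RingHom.FiniteType.comp (RingHom.finiteType_algebraMap.2 inferInstance)
    (RingHom.FiniteType.of_surjective _ (bijective_iterateFrobenius k p n).2)

/-- Finiteness of the integral closure. -/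
theorem closure_finite (k K E : Type) [Field k] [IsAlgClosed k] [Field K] [Field E]
    [Algebra k[X] K] [IsFractionRing k[X] K] [Algebra K E] [Algebra k[X] E]
    [IsScalarTower k[X] K E] [FiniteDimensional K E] :
    Module.Finite k[X] (integralClosure k[X] E) := by
  let p := ringExpChar k
  let S := separableClosure K E
  have hK : ExpChar K p := expChar_of_injective_ringHom (IsFractionRing.injective k[X] K) p
  have : IsScalarTower k[X] S E := .of_algebraMap_eq fun _ => rfl
  have h1 : Module.Finite k[X] (integralClosure k[X] S) :=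
    IsIntegralClosure.finite k[X] K S (integralClosure k[X] S)
  let n := IsPurelyInseparable.exponent S E
  let Fr : E →+* S := IsPurelyInseparable.iterateFrobenius S E p (le_refl n)
  have hFr : ∀ x, algebraMap S E (Fr x) = x ^ p ^ n :=
    IsPurelyInseparable.algebraMap_iterateFrobenius S p (le_refl n)
  let ψ : integralClosure k[X] E →+* integralClosure k[X] S :=
    (Fr.comp (integralClosure k[X] E).val.toRingHom).codRestrict (integralClosure k[X] S)
      fun b => (isIntegral_algebraMap_iff (algebraMap S E).injective).1 (by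
        have : IsIntegral k[X] ((b : E) ^ p ^ n) := IsIntegral.pow b.2 _
        rwa [← hFr] at this)
  have hψ : Function.Injective ψ := fun a b h =>
    Subtype.ext (Fr.injective (congrArg Subtype.val h))
  refine RingHom.finite_algebraMap.1 (fin_of_inj _ ψ hψ ?_)
  have e : ψ.comp (algebraMap k[X] (integralClosure k[X] E)) =
      (algebraMap k[X] (integralClosure k[X] S)).comp (iterateFrobenius k[X] p n) := by
    refine RingHom.ext fun a => Subtype.ext ((algebraMap S E).injective ?_)
    change algebraMap S E (Fr (algebraMap k[X] E a)) =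
      algebraMap S E (algebraMap k[X] S (iterateFrobenius k[X] p n a))
    rw [hFr, ← IsScalarTower.algebraMap_apply, iterateFrobenius_def, map_pow]
  rw [e]
  exact RingHom.Finite.comp (RingHom.finite_algebraMap.2 h1) (frob_finite k p n)

variable {L K : Type} [Field L] [Field K] [Algebra L K] [IsAlgClosed L]

/-- A valuation centred at a finite point is dominated by a place. -/
def Dom (L : Type) [Field L] [Algebra L K] (t : K) : Prop :=
  ∀ (O : ValuationSubring K) (c : L), (∀ a, algebraMap L K a ∈ O) → t ∈ O →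
    O.valuation (t - algebraMap L K c) < 1 → ∃ P : Place L K, ∀ x, O.valuation x < 1 → P.v x < 1

theorem setup {t : K} (ht : Transcendental L t) [FiniteDimensional L⟮t⟯ K] :
    Model L t ∧ (∀ x, Reg L t x ↔ IsIntegral (Algebra.adjoin L {t}) x) ∧ Dom L t := by
  let φ : L[X] →ₐ[L] L⟮t⟯ := aeval (IntermediateField.AdjoinSimple.gen L t)
  let _ : Algebra L[X] L⟮t⟯ := φ.toAlgebra
  let _ : Algebra L[X] K := (aeval t : L[X] →ₐ[L] K).toAlgebra
  have hX : algebraMap L[X] K X = t := aeval_X t
  have : IsScalarTower L L[X] K := .of_algebraMap_eq fun c =>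
    ((aeval t : L[X] →ₐ[L] K).commutes c).symm
  have : IsScalarTower L[X] L⟮t⟯ K := .of_algebraMap_eq fun p =>
    aeval_algebraMap_apply K (IntermediateField.AdjoinSimple.gen L t) p
  have : IsFractionRing L[X] L⟮t⟯ := IsLocalization.isLocalization_of_algEquiv L[X]⁰
    { (RatFunc.algEquivOfTranscendental t ht).toRingEquiv with
      commutes' := RatFunc.algEquivOfTranscendental_algebraMap t ht : RatFunc L ≃ₐ[L[X]] L⟮t⟯ }
  have : Module.IsTorsionFree L[X] K := .trans_faithfulSMul L[X] L⟮t⟯ K
  let B := integralClosure L[X] K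
  have : IsFractionRing B K := integralClosure.isFractionRing_of_finite_extension L⟮t⟯ K
  have : Module.Finite L[X] B := closure_finite L L⟮t⟯ K
  have : IsDedekindDomain B :=
    { IsNoetherianRing.of_finite L[X] B, Ring.DimensionLEOne.of_isIntegral L[X] B,
      (integralClosure.isIntegrallyClosedOfFiniteExtension L⟮t⟯ : IsIntegrallyClosed B) with }
  have : Module.IsTorsionFree L[X] B := IsIntegralClosure.isTorsionFree L[X] K
  have : Module.Free L[X] B := inferInstance
  have := IsIntegralClosure.isLocalization L[X] L⟮t⟯ K B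
  have rk : Module.finrank L[X] B = Module.finrank L⟮t⟯ K := by
    rw [Module.finrank_eq_card_chooseBasisIndex, Module.finrank_eq_card_basis
      (Module.Basis.localizationLocalization L⟮t⟯ L[X]⁰ K (Module.Free.chooseBasis L[X] B))]
  have hr : ∀ x, Reg L t x ↔ ∃ b, algebraMap B K b = x := fun x => hX ▸ reg_iff x
  have hp : ∀ P : Place L K, P.v t ≤ 1 → ∃ w : HeightOneSpectrum B, P = toPlace w :=
    fun P h => exists_prime P (hX ▸ h)
  refine ⟨⟨?_, fun P P' h h' ne => ?_, fun P h x hx => ?_, fun P h x hx => ?_,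
    by simpa only [hX, rk] using fund_aux (L := L) (K := K) (B := B)⟩, fun x => ?_,
    fun O c h1 h2 h3 => ?_⟩
  · let b := Module.finBasisOfFinrankEq L[X] B rk
    refine ⟨b.localizationLocalization L⟮t⟯ L[X]⁰ K, fun x => (hr x).trans ⟨?_, ?_⟩⟩
    · rintro ⟨y, rfl⟩
      refine ⟨b.repr y, ?_⟩
      conv_lhs => rw [← b.sum_repr y]
      simp only [map_sum, Algebra.smul_def, map_mul, Module.Basis.localizationLocalization_apply]
      rfl
    · rintro ⟨p, rfl⟩
      refine ⟨∑ i, p i • b i, ?_⟩
      simp only [map_sum, Algebra.smul_def, map_mul, Module.Basis.localizationLocalization_apply]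
      rfl
  · obtain ⟨w, rfl⟩ := hp P h
    obtain ⟨w', rfl⟩ := hp P' h'
    obtain ⟨y, h1, h2⟩ := SetLike.not_le_iff_exists.1 fun hle : w'.asIdeal ≤ w.asIdeal =>
      ne (by rw [HeightOneSpectrum.ext (w'.isMaximal.eq_of_le w.isPrime.ne_top hle)])
    exact ⟨_, (hr _).2 ⟨y, rfl⟩, w.valuation_eq_one_iff_notMem.2 h2,
      (w'.valuation_lt_one_iff_mem _).2 h1⟩
  · obtain ⟨w, rfl⟩ := hp P h
    obtain ⟨n, d, e⟩ := w.exists_primeCompl_mul_eq_of_integer x hx
    exact ⟨_, _, (hr _).2 ⟨n, rfl⟩, (hr _).2 ⟨d, rfl⟩, w.valuation_eq_one_iff_notMem.2 d.2, e⟩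
  · obtain ⟨w, rfl⟩ := hp P h
    obtain ⟨a, ha⟩ := w.exists_valuation_sub_lt_of_integer hx 1
    have := w.isMaximal
    obtain ⟨c, hc⟩ := (res_bij (L := L) w.asIdeal).2 (Ideal.Quotient.mk _ a)
    have h2 := (w.valuation_lt_one_iff_mem (K := K) _).2
      (Ideal.Quotient.eq.1 (hc.symm : _ = Ideal.Quotient.mk _ (algebraMap L B c)))
    refine ⟨c, ?_⟩
    have e : x - algebraMap L K c =
        algebraMap B K (a - algebraMap L B c) - (algebraMap B K a - x) := by
      rw [map_sub, ← IsScalarTower.algebraMap_apply]; ring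
    rw [e]
    exact (w.valuation K).map_sub_lt h2 ha
  · rw [hr, ← RingEquiv.isIntegral_iff (Polynomial.algEquivOfTranscendental L t ht).toRingEquiv
      (RingHom.ext fun p => by
        change ((Polynomial.algEquivOfTranscendental L t ht p : Algebra.adjoin L {t}) : K) = _
        rw [Polynomial.algEquivOfTranscendental_apply]
        exact (aeval_algebraMap_apply K (⟨t, Algebra.self_mem_adjoin_singleton L t⟩ :
          Algebra.adjoin L {t}) p).symm) x]
    exact ⟨fun ⟨b, hb⟩ => hb ▸ b.2, fun h => ⟨⟨x, h⟩, rfl⟩⟩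
  · have hO : ∀ p : L[X], algebraMap L[X] K p ∈ O.valuation.integer := fun p => by
      change O.valuation (aeval t p) ≤ 1
      rw [O.valuation_le_one_iff]
      induction p using Polynomial.induction_on' with
      | add p q hp hq => rw [map_add]; exact add_mem hp hq
      | monomial n a => rw [aeval_monomial]; exact mul_mem (h1 a) (pow_mem h2 n)
    have hB : ∀ b : B, O.valuation (algebraMap B K b) ≤ 1 := fun b => by
      let _ := ((algebraMap L[X] K).codRestrict _ hO).toAlgebra
      have : IsScalarTower L[X] O.valuation.integer K := .of_algebraMap_eq fun _ => rfl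
      exact (Valuation.integer.integers O.valuation).mem_of_integral
        (IsIntegral.tower_top (R := L[X]) b.2)
    let I : Ideal B :=
      { carrier := {b | O.valuation (algebraMap B K b) < 1}
        add_mem' := fun h1 h2 => by
          simp only [Set.mem_ofPred_eq, map_add]; exact O.valuation.map_add_lt h1 h2
        zero_mem' := by simp
        smul_mem' := fun c b h => by
          simp only [Set.mem_ofPred_eq, smul_eq_mul, map_mul]
          exact mul_lt_one_of_nonneg_of_lt_one_right (hB c) zero_le h }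
    have mem : ∀ b, b ∈ I ↔ O.valuation (algebraMap B K b) < 1 := fun _ => Iff.rfl
    have one : ∀ b, b ∉ I → O.valuation (algebraMap B K b) = 1 := fun b h =>
      le_antisymm (hB b) (not_lt.1 h)
    have e0 : algebraMap B K (algebraMap L[X] B (X - C c)) = t - algebraMap L K c := by
      rw [← IsScalarTower.algebraMap_apply]
      change aeval t (X - C c) = _
      simp
    let w : HeightOneSpectrum B :=
      { asIdeal := I
        isPrime := ⟨(Ideal.ne_top_iff_one _).2 (by simp [mem]), fun {a b} h => by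
          by_contra hc
          push Not at hc
          rw [mem, map_mul, map_mul, one _ hc.1, one _ hc.2, mul_one] at h
          exact lt_irrefl _ h⟩
        ne_bot := fun h => by
          have h4 : algebraMap L[X] B (X - C c) ∈ I := (mem _).2 (e0 ▸ h3)
          rw [h, Ideal.mem_bot] at h4
          rw [h4, map_zero] at e0
          exact trans_ne (trans_sub ht c) e0.symm }
    refine ⟨toPlace w, fun x hx => not_le.1 fun hle => ?_⟩
    have h0 : x ≠ 0 := by
      rintro rfl
      simp at hle
    obtain ⟨n, d, e⟩ := w.exists_primeCompl_mul_eq_of_integer x⁻¹ (by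
      rw [map_inv₀]
      exact inv_le_one_of_one_le₀ hle)
    have h5 := hB n
    rw [← e, map_mul, one d d.2, mul_one, map_inv₀,
      inv_le_one₀ (zero_lt_iff.2 (by simpa using h0))] at h5
    exact h5.not_gt hx

variable [FF L K]

theorem model {t : K} (ht : Transcendental L t) : Model L t :=
  have := FF.fin t ht
  (setup ht).1

theorem exists_poles {t : K} (ht : Transcendental L t) : ∃ Z : Finset (Place L K),
    (∀ P, P ∈ Z ↔ 1 < P.v t) ∧ ∑ P ∈ Z, log (P.v t) = Module.finrank L⟮t⟯ K := by
  obtain ⟨Z, h1, h2⟩ := (model (trans_inv ht)).fund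
  refine ⟨Z, fun P => (h1 P).trans ?_, by rw [adjoin_inv] at h2; simpa using h2⟩
  rw [map_inv₀, inv_lt_one₀ (zero_lt_iff.2 (by simpa using trans_ne ht))]

theorem finite_supp {x : K} (hx : x ≠ 0) : {P : Place L K | P.v x ≠ 1}.Finite := by
  rcases const_or_trans (L := L) x with ⟨c, rfl⟩ | ht
  · refine Set.finite_empty.subset fun P h => h (P.v_const fun h => hx (by rw [h, map_zero]))
  obtain ⟨Z, h1, -⟩ := (model ht).fund
  obtain ⟨Z', h2, -⟩ := exists_poles ht
  exact (Z.finite_toSet.union Z'.finite_toSet).subset fun P h =>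
    (lt_or_gt_of_ne h).imp (h1 P).2 (h2 P).2

theorem prod_formula {x : K} (hx : x ≠ 0) (Z : Finset (Place L K))
    (hZ : ∀ P, P.v x ≠ 1 → P ∈ Z) : ∑ P ∈ Z, log (P.v x) = 0 := by
  classical
  rcases const_or_trans (L := L) x with ⟨c, rfl⟩ | ht
  · exact Finset.sum_eq_zero fun P _ => by
      rw [P.v_const fun h => hx (by rw [h, map_zero]), log_one]
  obtain ⟨Z₁, h1, e1⟩ := (model ht).fund
  obtain ⟨Z₂, h2, e2⟩ := exists_poles ht
  rw [← Finset.sum_subset (s₁ := Z₁ ∪ Z₂) (fun P h => hZ P ((Finset.mem_union.1 h).elim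
      (fun h => ((h1 P).1 h).ne) fun h => ((h2 P).1 h).ne')) fun P _ h => by
        rw [Finset.mem_union, h1, h2, not_or, not_lt, not_lt] at h
        rw [le_antisymm h.2 h.1, log_one],
    Finset.sum_union (Finset.disjoint_left.2 fun P a b => ((h1 P).1 a).asymm ((h2 P).1 b)), e2,
    ← e1, Finset.sum_neg_distrib, add_neg_cancel]

theorem const_of_le {x : K} (h : ∀ P : Place L K, P.v x ≤ 1) : ∃ c, algebraMap L K c = x := by
  refine (const_or_trans (L := L) x).resolve_right fun ht => ?_
  obtain ⟨Z, h1, h2⟩ := exists_poles ht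
  have := FF.fin x ht
  have := Module.finrank_pos (R := L⟮x⟯) (M := K)
  obtain ⟨P, hP⟩ := Z.eq_empty_or_nonempty.resolve_left (by rintro rfl; simp at h2; omega)
  exact ((h1 P).1 hP).not_ge (h P)

theorem exists_center (R : Subalgebra L K) (φ : R →ₐ[L] L) {t : K} (hR : t ∈ R)
    (ht : Transcendental L t) : ∃ P : Place L K, ∀ r : R, P.v (r - algebraMap L K (φ r)) < 1 := by
  have := FF.fin t ht
  obtain ⟨O, h1, h2⟩ := Ideal.image_subset_nonunits_valuationSubring (A := R.toSubring)
    (RingHom.ker (φ : R →+* L)) (RingHom.ker_ne_top _)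
  have h3 : ∀ r : R, O.valuation (r - algebraMap L K (φ r)) < 1 := fun r =>
    O.mem_nonunits_iff.1 (h2 ⟨r - algebraMap L R (φ r), by
      change φ (r - algebraMap L R (φ r)) = 0
      simp, rfl⟩)
  obtain ⟨P, hP⟩ := (setup ht).2.2 O (φ ⟨t, hR⟩) (fun a => h1 (R.algebraMap_mem a)) (h1 hR)
    (h3 ⟨t, hR⟩)
  exact ⟨P, fun r => hP _ (h3 r)⟩

theorem res (P : Place L K) {x : K} (hx : P.v x ≤ 1) : ∃ c, P.v (x - algebraMap L K c) < 1 :=
  (model P.π_trans).res P P.v_π_le x hx

theorem reg_iff_integral {t : K} (ht : Transcendental L t) (x : K) :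
    Reg L t x ↔ IsIntegral (Algebra.adjoin L {t}) x :=
  have := FF.fin t ht
  (setup ht).2.1 x

theorem sum_zeros {t : K} (ht : Transcendental L t) (Z : Finset (Place L K))
    (hZ : ∀ P, P ∈ Z ↔ P.v t < 1) : ∑ P ∈ Z, -log (P.v t) = Module.finrank L⟮t⟯ K := by
  obtain ⟨Z', h1, h2⟩ := (model ht).fund
  rwa [show Z = Z' from Finset.ext fun P => (hZ P).trans (h1 P).symm]

theorem step_one (P : Place L K) (V : Submodule L K) [FiniteDimensional L V] (z : ℤ)
    (h : V ≤ P.le (z + 1)) : Module.finrank L V ≤ Module.finrank L (V ⊓ P.le z : Submodule L K) + 1 := by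
  by_cases h0 : V ≤ P.le z
  · rw [inf_eq_left.2 h0]; omega
  obtain ⟨x, hx, h1⟩ := SetLike.not_le_iff_exists.1 h0
  have h1 : exp z < P.v x := not_le.1 h1
  have v0 : P.v x ≠ 0 := (exp_pos.trans h1).ne'
  have x0 : x ≠ 0 := by simpa using v0
  have e : P.v x = exp (z + 1) := le_antisymm (h hx) (by
    rw [← exp_log v0, exp_lt_exp] at h1
    rw [← exp_log v0, exp_le_exp]; omega)
  have : V ≤ V ⊓ P.le z ⊔ L ∙ x := fun y hy => by
    obtain ⟨c, hc⟩ := res P (x := y / x) (by
      rw [map_div₀, e, div_le_one₀ exp_pos]; exact h hy)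
    refine Submodule.mem_sup.2 ⟨y - c • x, ⟨sub_mem hy (V.smul_mem c hx), ?_⟩, c • x,
      Submodule.smul_mem _ c (Submodule.mem_span_singleton_self x), by simp⟩
    change P.v _ ≤ _
    rw [show y - c • x = (y / x - algebraMap L K c) * x by rw [Algebra.smul_def]; field_simp,
      ← lt_mul_exp_iff_le exp_ne_zero, ← exp_add, map_mul, e]
    exact mul_lt_of_lt_one_left exp_pos hc
  refine (Submodule.finrank_mono this).trans
    ((Submodule.finrank_add_le_finrank_add_finrank _ _).trans ?_)
  rw [finrank_span_singleton x0]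

theorem step_nat (P : Place L K) (z : ℤ) (a : ℕ) (V : Submodule L K) [FiniteDimensional L V]
    (h : V ≤ P.le (z + a)) : Module.finrank L V ≤ Module.finrank L (V ⊓ P.le z : Submodule L K) + a := by
  induction a generalizing V with
  | zero => rw [inf_eq_left.2 (by simpa using h)]; omega
  | succ a ih =>
    have h1 := step_one P V (z + a) (by rwa [add_assoc])
    have h2 := ih (V ⊓ P.le (z + a)) inf_le_right
    have h3 : Module.finrank L (V ⊓ P.le (z + a) ⊓ P.le z : Submodule L K) ≤
        Module.finrank L (V ⊓ P.le z : Submodule L K) :=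
      Submodule.finrank_mono (inf_le_inf_right _ inf_le_left)
    omega

theorem step_many (Z : Finset (Place L K)) (z y : Place L K → ℤ) (V : Submodule L K)
    [FiniteDimensional L V] (hy : ∀ P ∈ Z, z P ≤ y P) (h : ∀ P ∈ Z, V ≤ P.le (y P)) :
    ∃ W ≤ V, (∀ P ∈ Z, W ≤ P.le (z P)) ∧
      (Module.finrank L V : ℤ) ≤ Module.finrank L W + ∑ P ∈ Z, (y P - z P) := by
  classical
  induction Z using Finset.induction_on with
  | empty => exact ⟨V, le_rfl, by simp, by simp⟩
  | insert P Z hP ih =>
    obtain ⟨W, h1, h2, h3⟩ := ih (fun Q hQ => hy Q (by simp [hQ])) fun Q hQ => h Q (by simp [hQ])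
    have := Submodule.finiteDimensional_of_le h1
    have e := Int.toNat_of_nonneg (sub_nonneg.2 (hy P (by simp)))
    have h4 := step_nat P (z P) (y P - z P).toNat W (by
      rw [e, add_sub_cancel]; exact h1.trans (h P (by simp)))
    refine ⟨W ⊓ P.le (z P), inf_le_left.trans h1, fun Q hQ => ?_, ?_⟩
    · rcases Finset.mem_insert.1 hQ with rfl | hQ
      · exact inf_le_right
      · exact inf_le_left.trans (h2 Q hQ)
    · rw [Finset.sum_insert hP]; omega

theorem exists_pole {t : K} (ht : Transcendental L t) : ∃ P : Place L K, 1 < P.v t := by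
  obtain ⟨Z, h1, h2⟩ := exists_poles ht
  have := FF.fin t ht
  have := Module.finrank_pos (R := L⟮t⟯) (M := K)
  obtain ⟨P, hP⟩ := Z.eq_empty_or_nonempty.resolve_left (by rintro rfl; simp at h2; omega)
  exact ⟨P, (h1 P).1 hP⟩

theorem eq_zero_of_lt {x : K} (h : ∀ P : Place L K, P.v x ≤ 1) (P : Place L K) (hP : P.v x < 1) :
    x = 0 := by_contra fun h0 =>
  have ⟨Q, hQ⟩ := exists_pole (P.trans h0 hP.ne)
  hQ.not_ge (h Q)

end place

section pres

variable {k L E : Type} [Field k] [Field L] [Field E] [Algebra k L] [Algebra k E]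

theorem uniq (P₁ P₂ : Place k L) (h : ∀ u, P₁.v u < 1 ↔ P₂.v u < 1) : P₁ = P₂ := by
  have he : P₁.v.IsEquiv P₂.v := Valuation.isEquiv_iff_val_lt_one.2 fun {x} => h x
  have key : ∀ x, x ≠ 0 → log (P₂.v x) = -log (P₂.v P₁.π) * log (P₁.v x) := fun x hx => by
    have := congrArg log (he.eq_one_iff_eq_one.1 (P₁.v_unit hx))
    rw [map_mul, map_zpow₀, log_mul (by simpa using hx) (zpow_ne_zero _ (by simpa using P₁.π_ne)),
      log_zpow, log_one, smul_eq_mul] at this
    linear_combination this
  have h1 : log (P₂.v P₁.π) ≤ 0 := by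
    rw [log_le_iff_le_exp (by simpa using P₁.π_ne)]
    exact he.le_one_iff_le_one.1 P₁.v_π_le
  have h2 := key _ P₂.π_ne
  rw [P₂.v_π, log_exp] at h2
  have h3 : -log (P₂.v P₁.π) = 1 :=
    Int.eq_one_of_mul_eq_one_right (b := -log (P₁.v P₂.π)) (by omega) (by linear_combination h2)
  refine MP_6f117a_ag.Place.ext' (Valuation.ext fun x => ?_)
  rcases eq_or_ne x 0 with rfl | hx
  · simp
  have := key x hx
  rw [h3, one_mul] at this
  rw [← exp_log (x := P₂.v x) (by simpa using hx), this, exp_log (by simpa using hx)]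

theorem const_eq (v : Valuation L ℤᵐ⁰) (triv : ∀ c : k, v (algebraMap k L c) ≤ 1) {x : L}
    {c c' : k} (h : v (x - algebraMap k L c) < 1) (h' : v (x - algebraMap k L c') < 1) :
    c = c' := by
  by_contra hc
  have hd : c' - c ≠ 0 := sub_ne_zero.2 (Ne.symm hc)
  have h1 := v.map_sub_lt h h'
  rw [sub_sub_sub_cancel_left, ← map_sub] at h1
  have h2 := triv (c' - c)⁻¹
  rw [map_inv₀, map_inv₀, inv_le_one₀
    (zero_lt_iff.2 ((map_ne_zero v).2 ((map_ne_zero (algebraMap k L)).2 hd)))] at h2
  exact absurd h1 (not_lt.2 h2)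

/-- The residue homomorphism. -/
theorem exists_res (v : Valuation L ℤᵐ⁰) (triv : ∀ c : k, v (algebraMap k L c) ≤ 1)
    (res : ∀ x, v x ≤ 1 → ∃ c, v (x - algebraMap k L c) < 1) :
    ∃ (R : Subalgebra k L) (φ : R →ₐ[k] k), (∀ x, x ∈ R ↔ v x ≤ 1) ∧
      ∀ r : R, v (r - algebraMap k L (φ r)) < 1 := by
  let R : Subalgebra k L :=
    { carrier := {x | v x ≤ 1}
      mul_mem' := fun {a b} ha hb => by
        simp only [Set.mem_ofPred_eq, map_mul] at *; exact mul_le_one' ha hb
      add_mem' := fun {a b} ha hb => v.map_add_le ha hb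
      algebraMap_mem' := triv }
  choose f hf using fun r : R => res r r.2
  refine ⟨R, ⟨⟨⟨⟨f, ?_⟩, fun a b => ?_⟩, ?_, fun a b => ?_⟩, fun c => ?_⟩, fun _ => Iff.rfl, hf⟩
  · exact const_eq v triv (hf 1) (by simp)
  · refine const_eq v triv (hf _) ?_
    have e : ((a * b : R) : L) - algebraMap k L (f a * f b) =
        a * (b - algebraMap k L (f b)) + algebraMap k L (f b) * (a - algebraMap k L (f a)) := by
      simp only [map_mul, MulMemClass.coe_mul]; ring
    rw [e]
    refine v.map_add_lt ?_ ?_ <;> rw [map_mul]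
    · exact mul_lt_one_of_nonneg_of_lt_one_right a.2 zero_le (hf b)
    · exact mul_lt_one_of_nonneg_of_lt_one_right (triv _) zero_le (hf a)
  · exact const_eq v triv (hf 0) (by simp)
  · refine const_eq v triv (hf _) ?_
    have e : ((a + b : R) : L) - algebraMap k L (f a + f b) =
        (a - algebraMap k L (f a)) + (b - algebraMap k L (f b)) := by
      simp only [map_add, AddMemClass.coe_add]; ring
    rw [e]
    exact v.map_add_lt (hf a) (hf b)
  · exact const_eq v triv (hf _) (by simp)

theorem exists_place (v : Valuation L ℤᵐ⁰) (triv : ∀ c : k, v (algebraMap k L c) ≤ 1)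
    (res : ∀ x, v x ≤ 1 → ∃ c, v (x - algebraMap k L c) < 1) (ψ : L →ₐ[k] E) {t : L}
    (ht : Transcendental k t)
    (H : ∀ (R : Subalgebra k E) (φ : R →ₐ[k] k) (t : E), t ∈ R → Transcendental k t →
      ∃ P : Place k E, ∀ r : R, P.v (r - algebraMap k E (φ r)) < 1) :
    ∃ P : Place k E, ∀ u, P.v (ψ u) < 1 ↔ v u < 1 := by
  obtain ⟨R, φ, hR, hφ⟩ := exists_res v triv res
  obtain ⟨s, hs, hs'⟩ : ∃ s ∈ R, Transcendental k s := by
    rcases le_total (v t) 1 with h | h
    · exact ⟨t, (hR t).2 h, ht⟩
    · refine ⟨t⁻¹, (hR _).2 ?_, fun h' => ht (IsAlgebraic.inv_iff.1 h')⟩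
      rw [map_inv₀]
      exact inv_le_one_of_one_le₀ h
  let e := R.equivMapOfInjective ψ ψ.injective
  obtain ⟨P, hP⟩ := H (R.map ψ) (φ.comp e.symm.toAlgHom) (ψ s) ⟨s, hs, rfl⟩
    fun h => hs' ((isAlgebraic_algHom_iff ψ ψ.injective).1 h)
  have hP' : ∀ r : R, P.v (ψ r - algebraMap k E (φ r)) < 1 := fun r => by
    have := hP (e r)
    simpa [e] using this
  have h1 : ∀ u, v u ≤ 1 → P.v (ψ u) ≤ 1 := fun u hu => by
    have := P.v.map_add_le (hP' ⟨u, (hR u).2 hu⟩).le (P.triv (φ ⟨u, (hR u).2 hu⟩))
    rwa [sub_add_cancel] at this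
  refine ⟨P, fun u => ⟨fun h => ?_, fun h => ?_⟩⟩
  · by_contra hc
    have hc' : 1 ≤ v u := not_lt.1 hc
    have h0 : u ≠ 0 := by rintro rfl; simp at hc'
    have := h1 u⁻¹ (by rw [map_inv₀]; exact inv_le_one_of_one_le₀ hc')
    rw [map_inv₀, map_inv₀, inv_le_one₀ (zero_lt_iff.2 (by simpa using h0))] at this
    exact absurd h (not_lt.2 this)
  · have h2 : φ ⟨u, (hR u).2 h.le⟩ = 0 := const_eq v triv (hφ _) (by simpa using h)
    have := hP' ⟨u, (hR u).2 h.le⟩
    rwa [h2, map_zero, sub_zero] at this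

end pres

theorem ff_of_finite (k L M : Type) [Field k] [Field L] [Field M] [Algebra k L] [Algebra k M]
    [Algebra L M] [IsScalarTower k L M] [FiniteDimensional L M] (t : L)
    [FiniteDimensional k⟮t⟯ L] : FF k L ∧ FF k M := by
  have e1 : Algebra.EssFiniteType k k⟮t⟯ := IntermediateField.essFiniteType_iff.2
    (IntermediateField.fg_adjoin_of_finite (Set.finite_singleton t))
  have e2 : Algebra.EssFiniteType k L := .comp k k⟮t⟯ L
  have e3 : Algebra.EssFiniteType k M := .comp k L M
  have a1 : Algebra.IsAlgebraic (Algebra.adjoin k {t}) L :=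
    IntermediateField.isAlgebraic_adjoin_iff_top.1 inferInstance
  have t1 : Algebra.trdeg k L ≤ 1 := by
    simpa using Algebra.IsAlgebraic.trdeg_le_cardinalMk k ({t} : Set L)
  have t2 : Algebra.trdeg k M ≤ 1 := by
    rw [← trdeg_add_eq k L (A := M), trdeg_eq_zero (R := L), add_zero]
    exact t1
  exact ⟨.of_fg (IntermediateField.fg_top_iff.2 e2) t1,
    .of_fg (IntermediateField.fg_top_iff.2 e3) t2⟩

section ext

variable {k L M : Type} [Field k] [IsAlgClosed k] [Field L] [Field M] [Algebra k L] [Algebra k M]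
  [FF k L] [FF k M]

/-- Restriction of a place along an embedding of function fields. -/
theorem exists_restrict (ψ : L →ₐ[k] M) {t : L} (ht : Transcendental k t) (P : Place k M) :
    ∃ P' : Place k L, ∀ u, P.v (ψ u) < 1 ↔ P'.v u < 1 := by
  obtain ⟨P', h⟩ := exists_place (P.v.comap (ψ : L →+* M))
    (fun c => by simpa using P.triv c)
    (fun x hx => (res P hx).imp fun c hc => by simpa using hc) (AlgHom.id k L) ht
    fun R φ _ hR ht => exists_center R φ hR ht
  exact ⟨P', fun u => (h u).symm⟩

/-- Extension of a place. -/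
theorem exists_extend (ψ : L →ₐ[k] M) {t : L} (ht : Transcendental k t) (P' : Place k L) :
    ∃ P : Place k M, ∀ u, P.v (ψ u) < 1 ↔ P'.v u < 1 :=
  exists_place P'.v P'.triv (fun _ hx => res P' hx) ψ ht
    fun R φ _ hR ht => exists_center R φ hR ht

end ext

section ptr

variable {k L M : Type} [Field k] [Field L] [Field M] [Algebra k L] [Algebra k M] [Algebra L M]
  [IsScalarTower k L M]

/-- The conjugate of a place. -/
noncomputable def conj (P : Place k M) (g : M ≃ₐ[L] M) : Place k M where
  v := P.v.comap (g : M →+* M)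
  surj := P.surj.comp g.surjective
  triv c := by
    rw [Valuation.comap_apply, IsScalarTower.algebraMap_apply k L M, RingHom.coe_coe, g.commutes,
      ← IsScalarTower.algebraMap_apply]
    exact P.triv c

theorem conj_v (P : Place k M) (g : M ≃ₐ[L] M) (y : M) : (conj P g).v y = P.v (g y) := rfl

theorem conj_main [FiniteDimensional L M] [IsGalois L M] {t : L} {P P' : Place k M}
    (hM : Model k (algebraMap L M t)) (h1 : P.v (algebraMap L M t) ≤ 1)
    (h2 : P'.v (algebraMap L M t) ≤ 1)
    (h : ∀ u : L, P'.v (algebraMap L M u) < 1 → P.v (algebraMap L M u) < 1) :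
    ∃ g : M ≃ₐ[L] M, P' = conj P g := by
  classical
  by_contra hc
  push Not at hc
  have c1 : ∀ (Q : Place k M) (g : M ≃ₐ[L] M), Q.v (algebraMap L M t) ≤ 1 →
      (conj Q g).v (algebraMap L M t) ≤ 1 := fun Q g a => by rwa [conj_v, g.commutes]
  choose y y1 y2 y3 using fun g => hM.sep P' (conj P g) h2 (c1 P g h1) (hc g)
  have z1 : ∀ Q : Place k M, Q.v (algebraMap L M t) ≤ 1 → Q.v (∏ g, y g) ≤ 1 := fun Q a => by
    rw [map_prod]
    exact Finset.prod_le_one' fun g _ => y1 g Q a
  have z2 : P'.v (∏ g, y g) = 1 := by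
    rw [map_prod]
    exact Finset.prod_eq_one fun g _ => y2 g
  have z3 : ∀ g : M ≃ₐ[L] M, (conj P g).v (∏ g, y g) < 1 := fun g => by
    rw [map_prod, ← Finset.mul_prod_erase _ _ (Finset.mem_univ g)]
    exact mul_lt_one_of_nonneg_of_lt_one_left zero_le (y3 g)
      (Finset.prod_le_one' fun g' _ => y1 g' _ (c1 P g h1))
  obtain ⟨c, hc⟩ := hM.res P' h2 _ z2.le
  have c0 : c ≠ 0 := by
    rintro rfl
    rw [map_zero, sub_zero, z2] at hc
    exact hc.false
  have a1 := h (Algebra.norm L (∏ g, y g - algebraMap k M c)) (by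
    rw [Algebra.norm_eq_prod_automorphisms, map_prod,
      ← Finset.mul_prod_erase _ _ (Finset.mem_univ 1)]
    exact mul_lt_one_of_nonneg_of_lt_one_left zero_le hc (Finset.prod_le_one' fun g _ =>
      (conj P' g).v.map_sub_le (z1 _ (c1 P' g h2)) ((conj P' g).triv c)))
  rw [Algebra.norm_eq_prod_automorphisms, map_prod, Finset.prod_eq_one fun g _ => ?_] at a1
  · exact a1.false
  · rw [← conj_v, (conj P g).v.map_sub_eq_of_lt_right (by rw [Place.v_const _ c0]; exact z3 g),
      Place.v_const _ c0]

/-- The Galois group acts transitively on the places over a place. -/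
theorem exists_conj [IsAlgClosed k] [FiniteDimensional L M] [IsGalois L M] [FF k M] {t : L}
    (ht : Transcendental k t) (P P' : Place k M)
    (h : ∀ u : L, P.v (algebraMap L M u) < 1 ↔ P'.v (algebraMap L M u) < 1) :
    ∃ g : M ≃ₐ[L] M, ∀ y, P'.v y = P.v (g y) := by
  have key : ∀ u : L, Transcendental k u → P.v (algebraMap L M u) ≤ 1 →
      ∃ g : M ≃ₐ[L] M, ∀ y, P'.v y = P.v (g y) := fun u hu a => by
    have hu' : Transcendental k (algebraMap L M u) :=
      (transcendental_algebraMap_iff (algebraMap L M).injective).2 hu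
    obtain ⟨g, rfl⟩ := conj_main (model hu') a (P' := P') (by
      by_contra b
      have b1 := (h u⁻¹).2 (by
        rw [map_inv₀, map_inv₀]
        exact inv_lt_one_of_one_lt₀ (not_le.1 b))
      rw [map_inv₀, map_inv₀, inv_lt_one₀ (zero_lt_iff.2 (by
        simpa using MP_6f117a_ag.trans_ne hu))] at b1
      exact b1.not_ge a) fun u => (h u).2
    exact ⟨g, fun _ => rfl⟩
  rcases le_total (P.v (algebraMap L M t)) 1 with a | a
  · exact key t ht a
  · refine key t⁻¹ (MP_6f117a_ag.trans_inv ht) ?_
    rw [map_inv₀, map_inv₀]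
    exact inv_le_one_of_one_le₀ a

end ptr

end Pool.Agent.P.MP_ab3ecb_nt.Inv.PL
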